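import Mathlib
set_option autoImplicit false

/-!
# A superlinear lower bound for the book thickness of `K_n □ K_n`

Outline.  Suppose that the rook's graph has a book embedding on `p = C n` pages, spine `pos`.
`f` and `g` are the row and the column of a vertex.

* Triangles (`Pages.tri`, `thin_total`): take sets `X < Y < Z` of spine positions.  Two triangles
  `x y z` of two different rows cannot have the same three pages, because the edges of one page
  between two separated sets are nested.  So, apart from triangles with an edge in a big monochromatic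
  star (at least `t` edges of one page from one vertex into one of the sets), there are at most
  `6 t p ^ 3` triangles.
* Packing (`packing`): two big stars of one page are nested, so their hulls are essentially disjoint
  intervals of the spine; hence most edges of big stars end in cells of `h = t / 4` consecutive
  spine positions which contain many vertices of the same row (`Dense`).
* `dense_of_spread`: if many rows are spread along the spine, then many vertices are dense, that is,
  a short interval around the vertex contains many vertices of its row.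
* `core`: vertices which are dense for the rows are spread for the columns (`col_bound`), so the
  previous step applied to the columns gives many vertices which are dense for the rows and for the
  columns; but a short interval contains only few such vertices (`both_dense`), because a vertex is
  determined by its row and its column.
* `no_pages`, `superlinear`: this is a contradiction when `n` is at least a constant times `C ^ 29`.
-/

namespace Pool.Agent.Results.MP_fb44d2_co.Superlinear

section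

open Finset

variable {V ι : Type} [Fintype V] [DecidableEq V] [DecidableEq ι]

/-- Antitone relations are small. -/
theorem anti_card (pos : V → ℕ) (hpos : Function.Injective pos) (S : Finset (V × V))
    (A B : Finset V) (hA : ∀ e ∈ S, e.1 ∈ A) (hB : ∀ e ∈ S, e.2 ∈ B)
    (h : ∀ e ∈ S, ∀ e' ∈ S, pos e.1 < pos e'.1 → pos e'.2 ≤ pos e.2) :
    S.card ≤ A.card + B.card := by
  classical
  let g : V × V → ℕ := fun e =>
    (A.filter (fun y => pos y < pos e.1)).card + (B.filter (fun z => pos e.2 < pos z)).card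
  have hg : ∀ e ∈ S, g e < A.card + B.card := by
    intro e he
    have h1 : (A.filter (fun y => pos y < pos e.1)).card < A.card := by
      apply Finset.card_lt_card
      refine ⟨Finset.filter_subset _ _, fun hsub => ?_⟩
      have := hsub (hA e he)
      rw [Finset.mem_filter] at this
      omega
    have h2 : (B.filter (fun z => pos e.2 < pos z)).card ≤ B.card :=
      Finset.card_le_card (Finset.filter_subset _ _)
    show _ + _ < _
    omega
  have hm1 : ∀ e ∈ S, ∀ e' ∈ S, pos e.1 < pos e'.1 → g e < g e' := by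
    intro e he e' he' hlt
    have h1 : (A.filter (fun y => pos y < pos e.1)).card <
        (A.filter (fun y => pos y < pos e'.1)).card := by
      apply Finset.card_lt_card
      refine ⟨?_, fun hsub => ?_⟩
      · intro y hy
        rw [Finset.mem_filter] at hy ⊢
        exact ⟨hy.1, by omega⟩
      · have : e.1 ∈ A.filter (fun y => pos y < pos e'.1) :=
          Finset.mem_filter.mpr ⟨hA e he, hlt⟩
        have := hsub this
        rw [Finset.mem_filter] at this
        omega
    have h2 : (B.filter (fun z => pos e.2 < pos z)).card ≤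
        (B.filter (fun z => pos e'.2 < pos z)).card := by
      apply Finset.card_le_card
      intro z hz
      rw [Finset.mem_filter] at hz ⊢
      have := h e he e' he' hlt
      exact ⟨hz.1, by omega⟩
    show _ + _ < _ + _
    omega
  have hm2 : ∀ e ∈ S, ∀ e' ∈ S, e.1 = e'.1 → pos e'.2 < pos e.2 → g e < g e' := by
    intro e he e' he' h1 hlt
    have h2 : (B.filter (fun z => pos e.2 < pos z)).card <
        (B.filter (fun z => pos e'.2 < pos z)).card := by
      apply Finset.card_lt_card
      refine ⟨?_, fun hsub => ?_⟩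
      · intro y hy
        rw [Finset.mem_filter] at hy ⊢
        exact ⟨hy.1, by omega⟩
      · have : e.2 ∈ B.filter (fun z => pos e'.2 < pos z) :=
          Finset.mem_filter.mpr ⟨hB e he, hlt⟩
        have := hsub this
        rw [Finset.mem_filter] at this
        omega
    show _ + _ < _ + _
    rw [h1]
    omega
  have hinj : Set.InjOn g (S : Set (V × V)) := by
    intro e he e' he' heq
    rcases lt_trichotomy (pos e.1) (pos e'.1) with h1 | h1 | h1
    · have := hm1 e he e' he' h1; omega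
    · have h1' := hpos h1
      rcases lt_trichotomy (pos e.2) (pos e'.2) with h2 | h2 | h2
      · have := hm2 e' he' e he h1'.symm h2; omega
      · exact Prod.ext h1' (hpos h2)
      · have := hm2 e he e' he' h1' h2; omega
    · have := hm1 e' he' e he h1; omega
  calc S.card = (S.image g).card := (Finset.card_image_of_injOn hinj).symm
    _ ≤ (Finset.range (A.card + B.card)).card := by
        apply Finset.card_le_card
        intro x hx
        obtain ⟨e, he, rfl⟩ := Finset.mem_image.mp hx
        exact Finset.mem_range.mpr (hg e he)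
    _ = A.card + B.card := Finset.card_range _

/-- Page assignment `col` for the cliques `f = const` along the spine `pos`. -/
structure Pages (pos : V → ℕ) (f : V → ι) (p : ℕ) (col : V → V → Fin p) : Prop where
  inj : Function.Injective pos
  symm : ∀ a b, col a b = col b a
  nc : ∀ a b c d, f a = f b → f c = f d → pos a < pos c → pos c < pos b → pos b < pos d →
    col a b ≠ col c d

variable {pos : V → ℕ} {f : V → ι} {p : ℕ} {col : V → V → Fin p}

/-- Two edges of the same page between two separated sets are nested. -/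
theorem Pages.nested (hP : Pages pos f p col) {y z y' z' : V} (h1 : f y = f z) (h2 : f y' = f z')
    (hc : col y z = col y' z')
    (hs : (pos y' < pos z) ∨ (pos z' < pos y ∧ pos z' < pos y')) (hy : pos y < pos y')
    (hs' : pos y' < pos z ∨ pos z' < pos y) : pos z' ≤ pos z := by
  by_contra hlt
  push Not at hlt
  rcases hs with hs | hs
  · exact hP.nc y z y' z' h1 h2 hy hs hlt hc
  · have := hP.nc z y z' y' h1.symm h2.symm hlt hs.1 hy
    rw [hP.symm z y, hP.symm z' y'] at this
    exact this hc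

/-- Two triangles of different vertices have different page triples. -/
theorem Pages.tri (hP : Pages pos f p col) {y1 y2 y3 z1 z2 z3 : V}
    (a1 : f y1 = f y2) (a2 : f y2 = f y3) (b1 : f z1 = f z2) (b2 : f z2 = f z3)
    (s1 : pos y1 < pos z2) (s2 : pos z1 < pos y2) (s3 : pos y2 < pos z3) (s4 : pos z2 < pos y3)
    (s5 : pos y1 < pos y2) (s6 : pos y2 < pos y3) (s7 : pos z1 < pos z2) (s8 : pos z2 < pos z3)
    (c1 : col y1 y2 = col z1 z2) (c2 : col y2 y3 = col z2 z3) (c3 : col y1 y3 = col z1 z3) :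
    y1 = z1 ∨ y2 = z2 ∨ y3 = z3 := by
  by_contra hne
  push Not at hne
  obtain ⟨n1, n2, n3⟩ := hne
  have m1 : pos y1 ≠ pos z1 := fun h => n1 (hP.inj h)
  have m2 : pos y2 ≠ pos z2 := fun h => n2 (hP.inj h)
  have m3 : pos y3 ≠ pos z3 := fun h => n3 (hP.inj h)
  rcases lt_or_gt_of_ne m1 with h | h
  · have e1 : pos z2 < pos y2 := by
      rcases lt_or_gt_of_ne m2 with h' | h'
      · exact absurd c1 (hP.nc y1 y2 z1 z2 a1 b1 h s2 h')
      · exact h'
    have e2 : pos y3 < pos z3 := by
      rcases lt_or_gt_of_ne m3 with h' | h'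
      · exact h'
      · exact absurd c2.symm (hP.nc z2 z3 y2 y3 b2 a2 e1 s3 h')
    exact hP.nc y1 y3 z1 z3 (a1.trans a2) (b1.trans b2) h (by omega) e2 c3
  · have e1 : pos y2 < pos z2 := by
      rcases lt_or_gt_of_ne m2 with h' | h'
      · exact h'
      · exact absurd c1.symm (hP.nc z1 z2 y1 y2 b1 a1 h s1 h')
    have e2 : pos z3 < pos y3 := by
      rcases lt_or_gt_of_ne m3 with h' | h'
      · exact absurd c2 (hP.nc y2 y3 z2 z3 a2 b2 e1 s4 h')
      · exact h'
    exact hP.nc z1 z3 y1 y3 (b1.trans b2) (a1.trans a2) h (by omega) e2 c3.symm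

/-- Number of neighbours of `y` in `Z` in the page `c`. -/
def deg (col : V → V → Fin p) (Z : Finset V) (y : V) (c : Fin p) : ℕ :=
  (Z.filter (fun z => col y z = c)).card

/-- Pairs in big fans. -/
def fatS (col : V → V → Fin p) (t : ℕ) (X Z : Finset V) : Finset (V × V) :=
  (X ×ˢ Z).filter (fun e => t ≤ deg col Z e.1 (col e.1 e.2))

/-- The page triple. -/
def chi (col : V → V → Fin p) (e : V × V × V) : Fin p × Fin p × Fin p :=
  (col e.1 e.2.1, col e.2.1 e.2.2, col e.1 e.2.2)

/-- All six degrees of a triangle are small. -/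
def Thin (col : V → V → Fin p) (t : ℕ) (X Y Z : Finset V) (e : V × V × V) : Prop :=
  deg col Y e.1 (col e.1 e.2.1) < t ∧ deg col X e.2.1 (col e.2.1 e.1) < t ∧
  deg col Z e.2.1 (col e.2.1 e.2.2) < t ∧ deg col Y e.2.2 (col e.2.2 e.2.1) < t ∧
  deg col Z e.1 (col e.1 e.2.2) < t ∧ deg col X e.2.2 (col e.2.2 e.1) < t

instance (col : V → V → Fin p) (t : ℕ) (X Y Z : Finset V) : DecidablePred (Thin col t X Y Z) :=
  fun _ => by unfold Thin; infer_instance

/-- Thin triangles of one colour class. -/
theorem thin_class (hP : Pages pos f p col) {t : ℕ} {X Y Z : Finset V} {i : ι}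
    (hX : ∀ x ∈ X, f x = i) (hY : ∀ x ∈ Y, f x = i) (hZ : ∀ x ∈ Z, f x = i)
    (hXY : ∀ x ∈ X, ∀ y ∈ Y, pos x < pos y) (hYZ : ∀ x ∈ Y, ∀ y ∈ Z, pos x < pos y)
    (c : Fin p × Fin p × Fin p) :
    (((X ×ˢ Y ×ˢ Z).filter (Thin col t X Y Z)).filter (fun e => chi col e = c)).card ≤
      6 * t := by
  classical
  set T := ((X ×ˢ Y ×ˢ Z).filter (Thin col t X Y Z)).filter (fun e => chi col e = c) with hT
  rcases T.eq_empty_or_nonempty with h0 | ⟨⟨y1, y2, y3⟩, hy⟩
  · rw [h0]; simp
  have hmem : ∀ e ∈ T, e.1 ∈ X ∧ e.2.1 ∈ Y ∧ e.2.2 ∈ Z ∧ Thin col t X Y Z e ∧ chi col e = c := by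
    intro e he
    rw [hT, Finset.mem_filter, Finset.mem_filter, Finset.mem_product, Finset.mem_product] at he
    exact ⟨he.1.1.1, he.1.1.2.1, he.1.1.2.2, he.1.2, he.2⟩
  obtain ⟨m1, m2, m3, mt, mc⟩ := hmem _ hy
  simp only at m1 m2 m3
  obtain ⟨t1, t2, t3, t4, t5, t6⟩ := mt
  simp only at t1 t2 t3 t4 t5 t6
  have hcover : T ⊆ (T.filter (fun e => e.1 = y1)) ∪ (T.filter (fun e => e.2.1 = y2)) ∪
      (T.filter (fun e => e.2.2 = y3)) := by
    intro e he
    obtain ⟨k1, k2, k3, _, kc⟩ := hmem e he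
    have hcc : chi col (y1, y2, y3) = chi col e := mc.trans kc.symm
    unfold chi at hcc
    simp only [Prod.mk.injEq] at hcc
    have := hP.tri (y1 := y1) (y2 := y2) (y3 := y3) (z1 := e.1) (z2 := e.2.1) (z3 := e.2.2)
      ((hX _ m1).trans (hY _ m2).symm) ((hY _ m2).trans (hZ _ m3).symm)
      ((hX _ k1).trans (hY _ k2).symm) ((hY _ k2).trans (hZ _ k3).symm)
      (hXY _ m1 _ k2) (hXY _ k1 _ m2) (hYZ _ m2 _ k3) (hYZ _ k2 _ m3)
      (hXY _ m1 _ m2) (hYZ _ m2 _ m3) (hXY _ k1 _ k2) (hYZ _ k2 _ k3)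
      hcc.1 hcc.2.1 hcc.2.2
    rw [Finset.mem_union, Finset.mem_union]
    rcases this with h | h | h
    · exact Or.inl (Or.inl (Finset.mem_filter.mpr ⟨he, h.symm⟩))
    · exact Or.inl (Or.inr (Finset.mem_filter.mpr ⟨he, h.symm⟩))
    · exact Or.inr (Finset.mem_filter.mpr ⟨he, h.symm⟩)
  have hcol : ∀ e ∈ T, col e.1 e.2.1 = col y1 y2 ∧ col e.2.1 e.2.2 = col y2 y3 ∧
      col e.1 e.2.2 = col y1 y3 := by
    intro e he
    obtain ⟨_, _, _, _, kc⟩ := hmem e he
    have hcc : chi col e = chi col (y1, y2, y3) := kc.trans mc.symm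
    unfold chi at hcc
    simp only [Prod.mk.injEq] at hcc
    exact hcc
  -- first coordinate fixed
  have b1 : (T.filter (fun e => e.1 = y1)).card ≤ 2 * t := by
    have hinj : Set.InjOn (fun e : V × V × V => (e.2.1, e.2.2))
        (T.filter (fun e => e.1 = y1) : Set (V × V × V)) := by
      intro e he e' he' heq
      have q1 := (Finset.mem_filter.mp he).2
      have q2 := (Finset.mem_filter.mp he').2
      simp only [Prod.mk.injEq] at heq
      exact Prod.ext (q1.trans q2.symm) (Prod.ext heq.1 heq.2)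
    rw [← Finset.card_image_of_injOn hinj]
    refine (anti_card pos hP.inj _ (Y.filter (fun z => col y1 z = col y1 y2))
      (Z.filter (fun z => col y1 z = col y1 y3)) ?_ ?_ ?_).trans ?_
    · intro e he
      obtain ⟨e0, he0, rfl⟩ := Finset.mem_image.mp he
      obtain ⟨q1, q2⟩ := Finset.mem_filter.mp he0
      have := hcol e0 q1
      rw [q2] at this
      exact Finset.mem_filter.mpr ⟨(hmem e0 q1).2.1, this.1⟩
    · intro e he
      obtain ⟨e0, he0, rfl⟩ := Finset.mem_image.mp he
      obtain ⟨q1, q2⟩ := Finset.mem_filter.mp he0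
      have := hcol e0 q1
      rw [q2] at this
      exact Finset.mem_filter.mpr ⟨(hmem e0 q1).2.2.1, this.2.2⟩
    · intro e he e' he' hlt
      obtain ⟨e0, he0, rfl⟩ := Finset.mem_image.mp he
      obtain ⟨e1, he1, rfl⟩ := Finset.mem_image.mp he'
      obtain ⟨q1, q2⟩ := Finset.mem_filter.mp he0
      obtain ⟨r1, r2⟩ := Finset.mem_filter.mp he1
      simp only at hlt ⊢
      have u := hmem e0 q1
      have v := hmem e1 r1
      by_contra hlt2
      push Not at hlt2
      exact hP.nc e0.2.1 e0.2.2 e1.2.1 e1.2.2 ((hY _ u.2.1).trans (hZ _ u.2.2.1).symm)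
        ((hY _ v.2.1).trans (hZ _ v.2.2.1).symm) hlt (hYZ _ v.2.1 _ u.2.2.1) hlt2
        ((hcol e0 q1).2.1.trans (hcol e1 r1).2.1.symm)
    · have q1 : (Y.filter (fun z => col y1 z = col y1 y2)).card < t := t1
      have q2 : (Z.filter (fun z => col y1 z = col y1 y3)).card < t := t5
      omega
  have b2 : (T.filter (fun e => e.2.1 = y2)).card ≤ 2 * t := by
    have hinj : Set.InjOn (fun e : V × V × V => (e.1, e.2.2))
        (T.filter (fun e => e.2.1 = y2) : Set (V × V × V)) := by
      intro e he e' he' heq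
      have q1 := (Finset.mem_filter.mp he).2
      have q2 := (Finset.mem_filter.mp he').2
      simp only [Prod.mk.injEq] at heq
      exact Prod.ext heq.1 (Prod.ext (q1.trans q2.symm) heq.2)
    rw [← Finset.card_image_of_injOn hinj]
    refine (anti_card pos hP.inj _ (X.filter (fun z => col y2 z = col y2 y1))
      (Z.filter (fun z => col y2 z = col y2 y3)) ?_ ?_ ?_).trans ?_
    · intro e he
      obtain ⟨e0, he0, rfl⟩ := Finset.mem_image.mp he
      obtain ⟨q1, q2⟩ := Finset.mem_filter.mp he0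
      have := (hcol e0 q1).1
      rw [q2, hP.symm, hP.symm y1] at this
      exact Finset.mem_filter.mpr ⟨(hmem e0 q1).1, this⟩
    · intro e he
      obtain ⟨e0, he0, rfl⟩ := Finset.mem_image.mp he
      obtain ⟨q1, q2⟩ := Finset.mem_filter.mp he0
      have := (hcol e0 q1).2.1
      rw [q2] at this
      exact Finset.mem_filter.mpr ⟨(hmem e0 q1).2.2.1, this⟩
    · intro e he e' he' hlt
      obtain ⟨e0, he0, rfl⟩ := Finset.mem_image.mp he
      obtain ⟨e1, he1, rfl⟩ := Finset.mem_image.mp he'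
      obtain ⟨q1, q2⟩ := Finset.mem_filter.mp he0
      obtain ⟨r1, r2⟩ := Finset.mem_filter.mp he1
      simp only at hlt ⊢
      have u := hmem e0 q1
      have v := hmem e1 r1
      by_contra hlt2
      push Not at hlt2
      exact hP.nc e0.1 e0.2.2 e1.1 e1.2.2 ((hX _ u.1).trans (hZ _ u.2.2.1).symm)
        ((hX _ v.1).trans (hZ _ v.2.2.1).symm) hlt
        ((hXY _ v.1 _ u.2.1).trans (hYZ _ u.2.1 _ u.2.2.1)) hlt2
        ((hcol e0 q1).2.2.trans (hcol e1 r1).2.2.symm)
    · have q1 : (X.filter (fun z => col y2 z = col y2 y1)).card < t := t2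
      have q2 : (Z.filter (fun z => col y2 z = col y2 y3)).card < t := t3
      omega
  have b3 : (T.filter (fun e => e.2.2 = y3)).card ≤ 2 * t := by
    have hinj : Set.InjOn (fun e : V × V × V => (e.1, e.2.1))
        (T.filter (fun e => e.2.2 = y3) : Set (V × V × V)) := by
      intro e he e' he' heq
      have q1 := (Finset.mem_filter.mp he).2
      have q2 := (Finset.mem_filter.mp he').2
      simp only [Prod.mk.injEq] at heq
      exact Prod.ext heq.1 (Prod.ext heq.2 (q1.trans q2.symm))
    rw [← Finset.card_image_of_injOn hinj]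
    refine (anti_card pos hP.inj _ (X.filter (fun z => col y3 z = col y3 y1))
      (Y.filter (fun z => col y3 z = col y3 y2)) ?_ ?_ ?_).trans ?_
    · intro e he
      obtain ⟨e0, he0, rfl⟩ := Finset.mem_image.mp he
      obtain ⟨q1, q2⟩ := Finset.mem_filter.mp he0
      have := (hcol e0 q1).2.2
      rw [q2, hP.symm, hP.symm y1] at this
      exact Finset.mem_filter.mpr ⟨(hmem e0 q1).1, this⟩
    · intro e he
      obtain ⟨e0, he0, rfl⟩ := Finset.mem_image.mp he
      obtain ⟨q1, q2⟩ := Finset.mem_filter.mp he0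
      have := (hcol e0 q1).2.1
      rw [q2, hP.symm, hP.symm y2] at this
      exact Finset.mem_filter.mpr ⟨(hmem e0 q1).2.1, this⟩
    · intro e he e' he' hlt
      obtain ⟨e0, he0, rfl⟩ := Finset.mem_image.mp he
      obtain ⟨e1, he1, rfl⟩ := Finset.mem_image.mp he'
      obtain ⟨q1, q2⟩ := Finset.mem_filter.mp he0
      obtain ⟨r1, r2⟩ := Finset.mem_filter.mp he1
      simp only at hlt ⊢
      have u := hmem e0 q1
      have v := hmem e1 r1
      by_contra hlt2
      push Not at hlt2
      exact hP.nc e0.1 e0.2.1 e1.1 e1.2.1 ((hX _ u.1).trans (hY _ u.2.1).symm)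
        ((hX _ v.1).trans (hY _ v.2.1).symm) hlt (hXY _ v.1 _ u.2.1) hlt2
        ((hcol e0 q1).1.trans (hcol e1 r1).1.symm)
    · have q1 : (X.filter (fun z => col y3 z = col y3 y1)).card < t := t6
      have q2 : (Y.filter (fun z => col y3 z = col y3 y2)).card < t := t4
      omega
  have c1 := Finset.card_le_card hcover
  have c2 := Finset.card_union_le ((T.filter (fun e => e.1 = y1)) ∪ (T.filter (fun e => e.2.1 = y2)))
    (T.filter (fun e => e.2.2 = y3))
  have c3 := Finset.card_union_le (T.filter (fun e => e.1 = y1)) (T.filter (fun e => e.2.1 = y2))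
  omega

end

section

open Finset

variable {V ι : Type} [Fintype V] [DecidableEq V] [DecidableEq ι]
variable {pos : V → ℕ} {f : V → ι} {p : ℕ} {col : V → V → Fin p}

/-- All thin triangles. -/
theorem thin_total (hP : Pages pos f p col) (R : Finset ι) (X Y Z : ι → Finset V) (t : ℕ)
    (hX : ∀ i, ∀ x ∈ X i, f x = i) (hY : ∀ i, ∀ x ∈ Y i, f x = i) (hZ : ∀ i, ∀ x ∈ Z i, f x = i)
    (hXY : ∀ i ∈ R, ∀ j ∈ R, ∀ x ∈ X i, ∀ y ∈ Y j, pos x < pos y)
    (hYZ : ∀ i ∈ R, ∀ j ∈ R, ∀ x ∈ Y i, ∀ y ∈ Z j, pos x < pos y) :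
    ∑ i ∈ R, ((X i ×ˢ Y i ×ˢ Z i).filter (Thin col t (X i) (Y i) (Z i))).card ≤
      6 * t * p ^ 3 := by
  classical
  set T : ι → Finset (V × V × V) := fun i =>
    (X i ×ˢ Y i ×ˢ Z i).filter (Thin col t (X i) (Y i) (Z i)) with hT
  have h1 : ∀ i ∈ R, (T i).card ≤ 6 * t * ((T i).image (chi col)).card := by
    intro i hi
    apply Finset.card_le_mul_card_image
    intro c _
    exact thin_class hP (hX i) (hY i) (hZ i) (hXY i hi i hi) (hYZ i hi i hi) c
  have hdisj : Set.PairwiseDisjoint (R : Set ι) (fun i => (T i).image (chi col)) := by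
    intro i hi j hj hij
    rw [Function.onFun, Finset.disjoint_left]
    intro c hc hc'
    obtain ⟨e, he, rfl⟩ := Finset.mem_image.mp hc
    obtain ⟨e', he', heq⟩ := Finset.mem_image.mp hc'
    rw [hT] at he he'
    simp only [Finset.mem_filter, Finset.mem_product] at he he'
    obtain ⟨⟨m1, m2, m3⟩, _⟩ := he
    obtain ⟨⟨k1, k2, k3⟩, _⟩ := he'
    unfold chi at heq
    simp only [Prod.mk.injEq] at heq
    rcases hP.tri (y1 := e.1) (y2 := e.2.1) (y3 := e.2.2) (z1 := e'.1) (z2 := e'.2.1)
      (z3 := e'.2.2) ((hX i _ m1).trans (hY i _ m2).symm) ((hY i _ m2).trans (hZ i _ m3).symm)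
      ((hX j _ k1).trans (hY j _ k2).symm) ((hY j _ k2).trans (hZ j _ k3).symm)
      (hXY i hi j hj _ m1 _ k2) (hXY j hj i hi _ k1 _ m2) (hYZ i hi j hj _ m2 _ k3)
      (hYZ j hj i hi _ k2 _ m3) (hXY i hi i hi _ m1 _ m2) (hYZ i hi i hi _ m2 _ m3)
      (hXY j hj j hj _ k1 _ k2) (hYZ j hj j hj _ k2 _ k3) heq.1.symm heq.2.1.symm heq.2.2.symm
      with h | h | h
    · exact hij ((hX i _ m1).symm.trans ((congrArg f h).trans (hX j _ k1)))
    · exact hij ((hY i _ m2).symm.trans ((congrArg f h).trans (hY j _ k2)))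
    · exact hij ((hZ i _ m3).symm.trans ((congrArg f h).trans (hZ j _ k3)))
  have h2 : ∑ i ∈ R, ((T i).image (chi col)).card ≤ p ^ 3 := by
    rw [← Finset.card_biUnion hdisj]
    calc (R.biUnion (fun i => (T i).image (chi col))).card
        ≤ (Finset.univ : Finset (Fin p × Fin p × Fin p)).card := Finset.card_le_univ _
      _ = p ^ 3 := by
          rw [Finset.card_univ, Fintype.card_prod, Fintype.card_prod, Fintype.card_fin]; ring
  calc ∑ i ∈ R, (T i).card ≤ ∑ i ∈ R, 6 * t * ((T i).image (chi col)).card :=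
        Finset.sum_le_sum h1
    _ = 6 * t * ∑ i ∈ R, ((T i).image (chi col)).card := by rw [Finset.mul_sum]
    _ ≤ 6 * t * p ^ 3 := Nat.mul_le_mul_left _ h2

/-- A triangle which is not thin uses a pair of a big fan. -/
theorem nonthin (X Y Z : Finset V) (t m : ℕ) (hX : X.card = m) (hY : Y.card = m)
    (hZ : Z.card = m) :
    ((X ×ˢ Y ×ˢ Z).filter (fun e => ¬ Thin col t X Y Z e)).card ≤
      m * ((fatS col t X Y).card + (fatS col t Y X).card + (fatS col t Y Z).card +
        (fatS col t Z Y).card + (fatS col t X Z).card + (fatS col t Z X).card) := by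
  classical
  set U := X ×ˢ Y ×ˢ Z with hU
  have hcover : U.filter (fun e => ¬ Thin col t X Y Z e) ⊆
      ((((U.filter (fun e => (e.1, e.2.1) ∈ fatS col t X Y) ∪
        U.filter (fun e => (e.2.1, e.1) ∈ fatS col t Y X)) ∪
        U.filter (fun e => (e.2.1, e.2.2) ∈ fatS col t Y Z)) ∪
        U.filter (fun e => (e.2.2, e.2.1) ∈ fatS col t Z Y)) ∪
        U.filter (fun e => (e.1, e.2.2) ∈ fatS col t X Z)) ∪
        U.filter (fun e => (e.2.2, e.1) ∈ fatS col t Z X) := by
    intro e he
    obtain ⟨he, hn⟩ := Finset.mem_filter.mp he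
    have he' := he
    rw [hU, Finset.mem_product, Finset.mem_product] at he'
    obtain ⟨m1, m2, m3⟩ := he'
    simp only [Finset.mem_union, Finset.mem_filter, fatS, Finset.mem_product]
    unfold Thin at hn
    by_contra hcon
    apply hn
    simp only [not_or, not_and, not_le] at hcon
    obtain ⟨⟨⟨⟨⟨a1, a2⟩, a3⟩, a4⟩, a5⟩, a6⟩ := hcon
    exact ⟨a1 he ⟨m1, m2⟩, a2 he ⟨m2, m1⟩, a3 he ⟨m2, m3⟩, a4 he ⟨m3, m2⟩, a5 he ⟨m1, m3⟩,
      a6 he ⟨m3, m1⟩⟩
  have hU' : ∀ e ∈ U, e.1 ∈ X ∧ e.2.1 ∈ Y ∧ e.2.2 ∈ Z := by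
    intro e he
    rw [hU, Finset.mem_product, Finset.mem_product] at he
    exact he
  have key : ∀ (F : Finset (V × V)) (A : Finset V) (g : V × V × V → (V × V) × V),
      Function.Injective g → A.card = m →
      (U.filter (fun e => (g e).1 ∈ F ∧ (g e).2 ∈ A)).card ≤ m * F.card := by
    intro F A g hg hA
    rw [← Finset.card_image_of_injective _ hg, ← hA, mul_comm, ← Finset.card_product]
    apply Finset.card_le_card
    intro x hx
    obtain ⟨e, he, rfl⟩ := Finset.mem_image.mp hx
    exact Finset.mem_product.mpr (Finset.mem_filter.mp he).2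
  have k1 : (U.filter (fun e => (e.1, e.2.1) ∈ fatS col t X Y)).card ≤
      m * (fatS col t X Y).card := by
    refine (Finset.card_le_card ?_).trans
      (key (fatS col t X Y) Z (fun e => ((e.1, e.2.1), e.2.2)) ?_ hZ)
    · intro e he
      obtain ⟨q1, q2⟩ := Finset.mem_filter.mp he
      exact Finset.mem_filter.mpr ⟨q1, q2, (hU' e q1).2.2⟩
    · rintro ⟨a, b, c⟩ ⟨a', b', c'⟩ h; simp only [Prod.mk.injEq] at h ⊢; tauto
  have k2 : (U.filter (fun e => (e.2.1, e.1) ∈ fatS col t Y X)).card ≤
      m * (fatS col t Y X).card := by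
    refine (Finset.card_le_card ?_).trans
      (key (fatS col t Y X) Z (fun e => ((e.2.1, e.1), e.2.2)) ?_ hZ)
    · intro e he
      obtain ⟨q1, q2⟩ := Finset.mem_filter.mp he
      exact Finset.mem_filter.mpr ⟨q1, q2, (hU' e q1).2.2⟩
    · rintro ⟨a, b, c⟩ ⟨a', b', c'⟩ h; simp only [Prod.mk.injEq] at h ⊢; tauto
  have k3 : (U.filter (fun e => (e.2.1, e.2.2) ∈ fatS col t Y Z)).card ≤
      m * (fatS col t Y Z).card := by
    refine (Finset.card_le_card ?_).trans
      (key (fatS col t Y Z) X (fun e => ((e.2.1, e.2.2), e.1)) ?_ hX)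
    · intro e he
      obtain ⟨q1, q2⟩ := Finset.mem_filter.mp he
      exact Finset.mem_filter.mpr ⟨q1, q2, (hU' e q1).1⟩
    · rintro ⟨a, b, c⟩ ⟨a', b', c'⟩ h; simp only [Prod.mk.injEq] at h ⊢; tauto
  have k4 : (U.filter (fun e => (e.2.2, e.2.1) ∈ fatS col t Z Y)).card ≤
      m * (fatS col t Z Y).card := by
    refine (Finset.card_le_card ?_).trans
      (key (fatS col t Z Y) X (fun e => ((e.2.2, e.2.1), e.1)) ?_ hX)
    · intro e he
      obtain ⟨q1, q2⟩ := Finset.mem_filter.mp he
      exact Finset.mem_filter.mpr ⟨q1, q2, (hU' e q1).1⟩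
    · rintro ⟨a, b, c⟩ ⟨a', b', c'⟩ h; simp only [Prod.mk.injEq] at h ⊢; tauto
  have k5 : (U.filter (fun e => (e.1, e.2.2) ∈ fatS col t X Z)).card ≤
      m * (fatS col t X Z).card := by
    refine (Finset.card_le_card ?_).trans
      (key (fatS col t X Z) Y (fun e => ((e.1, e.2.2), e.2.1)) ?_ hY)
    · intro e he
      obtain ⟨q1, q2⟩ := Finset.mem_filter.mp he
      exact Finset.mem_filter.mpr ⟨q1, q2, (hU' e q1).2.1⟩
    · rintro ⟨a, b, c⟩ ⟨a', b', c'⟩ h; simp only [Prod.mk.injEq] at h ⊢; tauto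
  have k6 : (U.filter (fun e => (e.2.2, e.1) ∈ fatS col t Z X)).card ≤
      m * (fatS col t Z X).card := by
    refine (Finset.card_le_card ?_).trans
      (key (fatS col t Z X) Y (fun e => ((e.2.2, e.1), e.2.1)) ?_ hY)
    · intro e he
      obtain ⟨q1, q2⟩ := Finset.mem_filter.mp he
      exact Finset.mem_filter.mpr ⟨q1, q2, (hU' e q1).2.1⟩
    · rintro ⟨a, b, c⟩ ⟨a', b', c'⟩ h; simp only [Prod.mk.injEq] at h ⊢; tauto
  have c0 := Finset.card_le_card hcover
  have e1 := Finset.card_union_le ((((U.filter (fun e => (e.1, e.2.1) ∈ fatS col t X Y) ∪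
        U.filter (fun e => (e.2.1, e.1) ∈ fatS col t Y X)) ∪
        U.filter (fun e => (e.2.1, e.2.2) ∈ fatS col t Y Z)) ∪
        U.filter (fun e => (e.2.2, e.2.1) ∈ fatS col t Z Y)) ∪
        U.filter (fun e => (e.1, e.2.2) ∈ fatS col t X Z))
        (U.filter (fun e => (e.2.2, e.1) ∈ fatS col t Z X))
  have e2 := Finset.card_union_le (((U.filter (fun e => (e.1, e.2.1) ∈ fatS col t X Y) ∪
        U.filter (fun e => (e.2.1, e.1) ∈ fatS col t Y X)) ∪
        U.filter (fun e => (e.2.1, e.2.2) ∈ fatS col t Y Z)) ∪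
        U.filter (fun e => (e.2.2, e.2.1) ∈ fatS col t Z Y))
        (U.filter (fun e => (e.1, e.2.2) ∈ fatS col t X Z))
  have e3 := Finset.card_union_le ((U.filter (fun e => (e.1, e.2.1) ∈ fatS col t X Y) ∪
        U.filter (fun e => (e.2.1, e.1) ∈ fatS col t Y X)) ∪
        U.filter (fun e => (e.2.1, e.2.2) ∈ fatS col t Y Z))
        (U.filter (fun e => (e.2.2, e.2.1) ∈ fatS col t Z Y))
  have e4 := Finset.card_union_le (U.filter (fun e => (e.1, e.2.1) ∈ fatS col t X Y) ∪
        U.filter (fun e => (e.2.1, e.1) ∈ fatS col t Y X))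
        (U.filter (fun e => (e.2.1, e.2.2) ∈ fatS col t Y Z))
  have e5 := Finset.card_union_le (U.filter (fun e => (e.1, e.2.1) ∈ fatS col t X Y))
        (U.filter (fun e => (e.2.1, e.1) ∈ fatS col t Y X))
  simp only [mul_add]
  omega

/-- Cells of the spine contain few vertices. -/
theorem cell_card (hpos : Function.Injective pos) {h : ℕ} (h0 : 0 < h) (q : ℕ) :
    (Finset.univ.filter (fun v => pos v / h = q)).card ≤ h := by
  classical
  calc (Finset.univ.filter (fun v => pos v / h = q)).card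
        = ((Finset.univ.filter (fun v => pos v / h = q)).image pos).card :=
          (Finset.card_image_of_injective _ hpos).symm
      _ ≤ (Finset.Ico (q * h) (q * h + h)).card := by
          apply Finset.card_le_card
          intro x hx
          obtain ⟨v, hv, rfl⟩ := Finset.mem_image.mp hx
          have hq := (Finset.mem_filter.mp hv).2
          rw [Finset.mem_Ico]
          have h1 := Nat.div_add_mod (pos v) h
          have h2 := Nat.mod_lt (pos v) h0
          rw [hq, mul_comm] at h1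
          omega
      _ = h := by rw [Nat.card_Ico]; omega

/-- Vertices of `W` whose line has at least `θ` elements of `W` in their cell. -/
def Dense (W : Finset V) (pos : V → ℕ) (f : V → ι) (h θ : ℕ) : Finset V :=
  W.filter (fun z => θ ≤ (W.filter (fun w => f w = f z ∧ pos w / h = pos z / h)).card)

/-- The second vertex of the pair lies in an interior cell of its fan. -/
def Inter (pos : V → ℕ) (f : V → ι) (col : V → V → Fin p) (Z : ι → Finset V) (h : ℕ)
    (e : V × V) : Prop :=
  ∃ z1 ∈ Z (f e.1), ∃ z2 ∈ Z (f e.1), col e.1 z1 = col e.1 e.2 ∧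
    col e.1 z2 = col e.1 e.2 ∧ pos z1 / h < pos e.2 / h ∧ pos e.2 / h < pos z2 / h

/-- Packing of big fans. -/
theorem packing (hP : Pages pos f p col) (R : Finset ι) (X Z : ι → Finset V) (W : Finset V)
    {t h Q θ n : ℕ} (h0 : 0 < h) (hth : 4 * h ≤ t) (hQ : ∀ v, pos v < Q * h)
    (hn : ∀ i, (Finset.univ.filter (fun v => f v = i)).card ≤ n)
    (hX : ∀ i, ∀ x ∈ X i, f x = i) (hZ : ∀ i, ∀ x ∈ Z i, f x = i)
    (hW : ∀ i, Z i ⊆ W)
    (hs : (∀ i ∈ R, ∀ j ∈ R, ∀ x ∈ X i, ∀ y ∈ Z j, pos x < pos y) ∨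
      (∀ i ∈ R, ∀ j ∈ R, ∀ x ∈ X i, ∀ y ∈ Z j, pos y < pos x)) :
    ∑ i ∈ R, (fatS col t (X i) (Z i)).card ≤
      2 * (n * (Dense W pos f h θ).card + p * Q * θ) := by
  classical
  set E := R.biUnion (fun i => fatS col t (X i) (Z i)) with hE
  have hfat : ∀ i, ∀ e ∈ fatS col t (X i) (Z i), e.1 ∈ X i ∧ e.2 ∈ Z i ∧
      t ≤ deg col (Z i) e.1 (col e.1 e.2) := by
    intro i e he
    unfold fatS at he
    rw [Finset.mem_filter, Finset.mem_product] at he
    exact ⟨he.1.1, he.1.2, he.2⟩
  have hcardE : ∑ i ∈ R, (fatS col t (X i) (Z i)).card = E.card := by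
    rw [hE, Finset.card_biUnion]
    intro i _ j _ hij
    rw [Function.onFun, Finset.disjoint_left]
    intro e he he'
    exact hij ((hX i _ (hfat i e he).1).symm.trans (hX j _ (hfat j e he').1))
  have hmE : ∀ e ∈ E, f e.1 ∈ R ∧ e.1 ∈ X (f e.1) ∧ e.2 ∈ Z (f e.1) ∧
      t ≤ deg col (Z (f e.1)) e.1 (col e.1 e.2) := by
    intro e he
    rw [hE, Finset.mem_biUnion] at he
    obtain ⟨i, hi, he⟩ := he
    obtain ⟨q1, q2, q3⟩ := hfat i e he
    have := hX i _ q1
    rw [this]
    exact ⟨hi, q1, q2, q3⟩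
  have hEm : ∀ y z, f y ∈ R → y ∈ X (f y) → z ∈ Z (f y) → t ≤ deg col (Z (f y)) y (col y z) →
      (y, z) ∈ E := by
    intro y z hy hy' hz hd
    rw [hE, Finset.mem_biUnion]
    refine ⟨f y, hy, ?_⟩
    unfold fatS
    rw [Finset.mem_filter, Finset.mem_product]
    exact ⟨⟨hy', hz⟩, hd⟩
  -- nestedness
  have hnest : ∀ e ∈ E, ∀ e' ∈ E, col e.1 e.2 = col e'.1 e'.2 → pos e.1 < pos e'.1 →
      pos e'.2 ≤ pos e.2 := by
    intro e he e' he' hc hlt
    obtain ⟨a1, a2, a3, _⟩ := hmE e he
    obtain ⟨b1, b2, b3, _⟩ := hmE e' he'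
    have q1 : f e.1 = f e.2 := (hZ _ _ a3).symm
    have q2 : f e'.1 = f e'.2 := (hZ _ _ b3).symm
    rcases hs with hs | hs
    · exact hP.nested q1 q2 hc (Or.inl (hs _ b1 _ a1 _ b2 _ a3)) hlt
        (Or.inl (hs _ b1 _ a1 _ b2 _ a3))
    · exact hP.nested q1 q2 hc (Or.inr ⟨hs _ a1 _ b1 _ a2 _ b3, hs _ b1 _ b1 _ b2 _ b3⟩) hlt
        (Or.inr (hs _ a1 _ b1 _ a2 _ b3))
  -- interior pairs
  set E' := E.filter (Inter pos f col Z h) with hE'
  have hhalf : E.card ≤ 2 * E'.card := by
    have k1 : E.card = ∑ x ∈ (Finset.univ : Finset (V × Fin p)),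
        (E.filter (fun e => (e.1, col e.1 e.2) = x)).card :=
      Finset.card_eq_sum_card_fiberwise (fun e _ => Finset.mem_coe.mpr (Finset.mem_univ _))
    have k2 : E'.card = ∑ x ∈ (Finset.univ : Finset (V × Fin p)),
        (E'.filter (fun e => (e.1, col e.1 e.2) = x)).card :=
      Finset.card_eq_sum_card_fiberwise (fun e _ => Finset.mem_coe.mpr (Finset.mem_univ _))
    rw [k1, k2, Finset.mul_sum]
    apply Finset.sum_le_sum
    rintro ⟨y, a⟩ _
    rcases (E.filter (fun e => (e.1, col e.1 e.2) = (y, a))).eq_empty_or_nonempty with h1 | h1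
    · rw [h1]; simp
    obtain ⟨e0, he00⟩ := h1
    obtain ⟨he0E, hx0⟩ := Finset.mem_filter.mp he00
    simp only [Prod.mk.injEq] at hx0
    obtain ⟨rfl, rfl⟩ := hx0
    obtain ⟨a1, a2, a3, a4⟩ := hmE e0 he0E
    set A := (Z (f e0.1)).filter (fun z => col e0.1 z = col e0.1 e0.2) with hA
    have hAcard : t ≤ A.card := a4
    have hAne : A.Nonempty := ⟨e0.2, Finset.mem_filter.mpr ⟨a3, rfl⟩⟩
    obtain ⟨zm, hzm, hmin⟩ := Finset.exists_min_image A (fun z => pos z / h) hAne
    obtain ⟨zM, hzM, hmax⟩ := Finset.exists_max_image A (fun z => pos z / h) hAne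
    have hfib : (E.filter (fun e => (e.1, col e.1 e.2) = (e0.1, col e0.1 e0.2))).card = A.card := by
      rw [← Finset.card_image_of_injOn (s := E.filter _) (f := Prod.snd)]
      · congr 1
        ext z
        constructor
        · intro hz
          obtain ⟨e, he, rfl⟩ := Finset.mem_image.mp hz
          obtain ⟨he, hx⟩ := Finset.mem_filter.mp he
          simp only [Prod.mk.injEq] at hx
          obtain ⟨_, _, q3, _⟩ := hmE e he
          rw [hx.1] at q3
          refine Finset.mem_filter.mpr ⟨q3, ?_⟩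
          rw [← hx.2, hx.1]
        · intro hz
          obtain ⟨hz1, hz2⟩ := Finset.mem_filter.mp hz
          refine Finset.mem_image.mpr ⟨(e0.1, z), Finset.mem_filter.mpr ⟨?_, ?_⟩, rfl⟩
          · apply hEm _ _ a1 a2 hz1
            rw [hz2]; exact a4
          · simp only [Prod.mk.injEq, true_and]; exact hz2
      · intro e he e' he' heq
        have q1 := (Finset.mem_filter.mp he).2
        have q2 := (Finset.mem_filter.mp he').2
        simp only [Prod.mk.injEq] at q1 q2
        exact Prod.ext (q1.1.trans q2.1.symm) heq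
    have hfib' : A.card ≤
        (E'.filter (fun e => (e.1, col e.1 e.2) = (e0.1, col e0.1 e0.2))).card + 2 * h := by
      have hsub : A ⊆ ((E'.filter (fun e => (e.1, col e.1 e.2) = (e0.1, col e0.1 e0.2))).image
          Prod.snd ∪ Finset.univ.filter (fun v => pos v / h = pos zm / h)) ∪
          Finset.univ.filter (fun v => pos v / h = pos zM / h) := by
        intro z hz
        rw [Finset.mem_union, Finset.mem_union]
        by_cases c1 : pos z / h = pos zm / h
        · exact Or.inl (Or.inr (Finset.mem_filter.mpr ⟨Finset.mem_univ _, c1⟩))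
        by_cases c2 : pos z / h = pos zM / h
        · exact Or.inr (Finset.mem_filter.mpr ⟨Finset.mem_univ _, c2⟩)
        left; left
        obtain ⟨hz1, hz2⟩ := Finset.mem_filter.mp hz
        have hzE : (e0.1, z) ∈ E := by
          apply hEm _ _ a1 a2 hz1
          rw [hz2]; exact a4
        refine Finset.mem_image.mpr ⟨(e0.1, z), Finset.mem_filter.mpr ⟨?_, ?_⟩, rfl⟩
        · rw [hE', Finset.mem_filter]
          refine ⟨hzE, zm, (Finset.mem_filter.mp hzm).1, zM, (Finset.mem_filter.mp hzM).1,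
            ?_, ?_, ?_, ?_⟩
          · show col e0.1 zm = col e0.1 z
            rw [hz2]; exact (Finset.mem_filter.mp hzm).2
          · show col e0.1 zM = col e0.1 z
            rw [hz2]; exact (Finset.mem_filter.mp hzM).2
          · show pos zm / h < pos z / h
            have := hmin z hz
            omega
          · show pos z / h < pos zM / h
            have := hmax z hz
            omega
        · simp only [Prod.mk.injEq, true_and]; exact hz2
      have d1 := Finset.card_le_card hsub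
      have d2 := Finset.card_union_le (((E'.filter (fun e => (e.1, col e.1 e.2) =
        (e0.1, col e0.1 e0.2))).image Prod.snd ∪
        Finset.univ.filter (fun v => pos v / h = pos zm / h)))
        (Finset.univ.filter (fun v => pos v / h = pos zM / h))
      have d3 := Finset.card_union_le ((E'.filter (fun e => (e.1, col e.1 e.2) =
        (e0.1, col e0.1 e0.2))).image Prod.snd)
        (Finset.univ.filter (fun v => pos v / h = pos zm / h))
      have d4 := cell_card hP.inj h0 (pos zm / h)
      have d5 := cell_card hP.inj h0 (pos zM / h)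
      have d6 : ((E'.filter (fun e => (e.1, col e.1 e.2) =
        (e0.1, col e0.1 e0.2))).image Prod.snd).card ≤ _ := Finset.card_image_le
      omega
    rw [hfib]
    omega
  -- counting interior pairs
  have hcount : E'.card ≤ n * (Dense W pos f h θ).card + p * Q * θ := by
    have hsplit := Finset.card_filter_add_card_filter_not (s := E')
      (fun e => e.2 ∈ Dense W pos f h θ)
    have hd : (E'.filter (fun e => e.2 ∈ Dense W pos f h θ)).card ≤
        n * (Dense W pos f h θ).card := by
      have := Finset.card_le_mul_card_image_of_maps_to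
        (s := E'.filter (fun e => e.2 ∈ Dense W pos f h θ)) (t := Dense W pos f h θ)
        (f := Prod.snd) (fun e he => (Finset.mem_filter.mp he).2) n ?_
      · exact this
      · intro z _
        refine le_trans ?_ (hn (f z))
        rw [← Finset.card_image_of_injOn (s := Finset.filter _ _) (f := Prod.fst)]
        · apply Finset.card_le_card
          intro y hy
          obtain ⟨e, he, rfl⟩ := Finset.mem_image.mp hy
          obtain ⟨he, hez⟩ := Finset.mem_filter.mp he
          have heE : e ∈ E := (Finset.mem_filter.mp (Finset.mem_filter.mp he).1).1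
          refine Finset.mem_filter.mpr ⟨Finset.mem_univ _, ?_⟩
          rw [← hez]
          exact (hZ _ _ (hmE e heE).2.2.1).symm
        · intro e he e' he' heq
          have q1 := (Finset.mem_filter.mp he).2
          have q2 := (Finset.mem_filter.mp he').2
          exact Prod.ext heq (q1.trans q2.symm)
    have hnd : (E'.filter (fun e => ¬ e.2 ∈ Dense W pos f h θ)).card ≤ p * Q * θ := by
      have key := Finset.card_le_mul_card_image_of_maps_to
        (s := E'.filter (fun e => ¬ e.2 ∈ Dense W pos f h θ))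
        (t := (Finset.univ : Finset (Fin p)) ×ˢ Finset.range Q)
        (f := fun e => (col e.1 e.2, pos e.2 / h)) ?_ θ ?_
      · rw [Finset.card_product, Finset.card_univ, Fintype.card_fin, Finset.card_range] at key
        calc _ ≤ θ * (p * Q) := key
          _ = p * Q * θ := by ring
      · intro e _
        rw [Finset.mem_product, Finset.mem_range]
        exact ⟨Finset.mem_univ _, Nat.div_lt_of_lt_mul (by rw [mul_comm]; exact hQ _)⟩
      · rintro ⟨a, q⟩ _
        rcases ((E'.filter (fun e => ¬ e.2 ∈ Dense W pos f h θ)).filter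
          (fun e => (col e.1 e.2, pos e.2 / h) = (a, q))).eq_empty_or_nonempty with h1 | h1
        · rw [h1]; simp
        obtain ⟨e0, he0⟩ := h1
        obtain ⟨he0, hx0⟩ := Finset.mem_filter.mp he0
        obtain ⟨he0, hnd0⟩ := Finset.mem_filter.mp he0
        simp only [Prod.mk.injEq] at hx0
        obtain ⟨he0E, w1, hw1, w2, hw2, c1, c2, l1, l2⟩ := Finset.mem_filter.mp he0
        obtain ⟨g1, g2, g3, g4⟩ := hmE e0 he0E
        have huniq : ∀ e ∈ E', col e.1 e.2 = col e0.1 e0.2 → pos e.2 / h = pos e0.2 / h →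
            e.1 = e0.1 := by
          intro e he hc hq
          obtain ⟨heE, u1, hu1, u2, hu2, d1, d2, k1, k2⟩ := Finset.mem_filter.mp he
          obtain ⟨r1, r2, r3, r4⟩ := hmE e heE
          have m1 : (e.1, u1) ∈ E := hEm _ _ r1 r2 hu1 (by rw [d1]; exact r4)
          have m2 : (e.1, u2) ∈ E := hEm _ _ r1 r2 hu2 (by rw [d2]; exact r4)
          have m3 : (e0.1, w1) ∈ E := hEm _ _ g1 g2 hw1 (by rw [c1]; exact g4)
          have m4 : (e0.1, w2) ∈ E := hEm _ _ g1 g2 hw2 (by rw [c2]; exact g4)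
          rcases lt_trichotomy (pos e.1) (pos e0.1) with hlt | hlt | hlt
          · exfalso
            have := hnest _ m1 _ m4 (by
              show col e.1 u1 = col e0.1 w2
              rw [d1, c2, hc]) hlt
            have h3 := Nat.div_le_div_right (c := h) this
            simp only at h3
            omega
          · exact hP.inj hlt
          · exfalso
            have := hnest _ m3 _ m2 (by
              show col e0.1 w1 = col e.1 u2
              rw [d2, c1, hc]) hlt
            have h3 := Nat.div_le_div_right (c := h) this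
            simp only at h3
            omega
        have hcell : ¬ θ ≤ (W.filter (fun w => f w = f e0.2 ∧ pos w / h = pos e0.2 / h)).card := by
          intro hθ
          apply hnd0
          unfold Dense
          exact Finset.mem_filter.mpr ⟨hW _ g3, hθ⟩
        refine le_trans ?_ (not_le.mp hcell).le
        rw [← Finset.card_image_of_injOn (s := Finset.filter _ _) (f := Prod.snd)]
        · apply Finset.card_le_card
          intro z hz
          obtain ⟨e, he, rfl⟩ := Finset.mem_image.mp hz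
          obtain ⟨he, hx⟩ := Finset.mem_filter.mp he
          obtain ⟨he, _⟩ := Finset.mem_filter.mp he
          simp only [Prod.mk.injEq] at hx
          have he1 := huniq e he (hx.1.trans hx0.1.symm) (hx.2.trans hx0.2.symm)
          have heE : e ∈ E := (Finset.mem_filter.mp he).1
          obtain ⟨_, _, r3, _⟩ := hmE e heE
          refine Finset.mem_filter.mpr ⟨hW _ r3, ?_, hx.2.trans hx0.2.symm⟩
          rw [hZ _ _ r3, hZ _ _ g3, he1]
        · intro e he e' he' heq
          have q1 := Finset.mem_filter.mp he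
          have q2 := Finset.mem_filter.mp he'
          have x1 := q1.2
          have x2 := q2.2
          simp only [Prod.mk.injEq] at x1 x2
          have y1 := huniq e (Finset.mem_filter.mp q1.1).1 (x1.1.trans hx0.1.symm)
            (x1.2.trans hx0.2.symm)
          have y2 := huniq e' (Finset.mem_filter.mp q2.1).1 (x2.1.trans hx0.1.symm)
            (x2.2.trans hx0.2.symm)
          exact Prod.ext (y1.trans y2.symm) heq
    omega
  rw [hcardE]
  omega

end

section

open Finset

variable {V ι κ : Type} [Fintype V] [DecidableEq V] [DecidableEq ι] [DecidableEq κ]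
variable {pos : V → ℕ} {f : V → ι} {g : V → κ} {p : ℕ} {col : V → V → Fin p}

theorem dense_of_sets (hP : Pages pos f p col) (R : Finset ι) (X Y Z : ι → Finset V)
    (W : Finset V) {t h Q θ n m : ℕ} (h0 : 0 < h) (hth : 4 * h ≤ t) (hQ : ∀ v, pos v < Q * h)
    (hn : ∀ i, (Finset.univ.filter (fun v => f v = i)).card ≤ n)
    (hX : ∀ i, ∀ x ∈ X i, f x = i) (hY : ∀ i, ∀ x ∈ Y i, f x = i) (hZ : ∀ i, ∀ x ∈ Z i, f x = i)
    (hXW : ∀ i, X i ⊆ W) (hYW : ∀ i, Y i ⊆ W) (hZW : ∀ i, Z i ⊆ W)
    (hXY : ∀ i ∈ R, ∀ j ∈ R, ∀ x ∈ X i, ∀ y ∈ Y j, pos x < pos y)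
    (hYZ : ∀ i ∈ R, ∀ j ∈ R, ∀ x ∈ Y i, ∀ y ∈ Z j, pos x < pos y)
    (hXZ : ∀ i ∈ R, ∀ j ∈ R, ∀ x ∈ X i, ∀ y ∈ Z j, pos x < pos y)
    (cX : ∀ i ∈ R, (X i).card = m) (cY : ∀ i ∈ R, (Y i).card = m)
    (cZ : ∀ i ∈ R, (Z i).card = m) (hm : 0 < m) (ht : 12 * t * p ^ 3 ≤ R.card * m ^ 3) :
    R.card * m ^ 2 ≤ 24 * (n * (Dense W pos f h θ).card + p * Q * θ) := by
  classical
  set B := n * (Dense W pos f h θ).card + p * Q * θ with hB
  have hthin := thin_total hP R X Y Z t hX hY hZ hXY hYZ
  have hi : ∀ i ∈ R, m ^ 3 ≤ ((X i ×ˢ Y i ×ˢ Z i).filter (Thin col t (X i) (Y i) (Z i))).card +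
      m * ((fatS col t (X i) (Y i)).card + (fatS col t (Y i) (X i)).card +
        (fatS col t (Y i) (Z i)).card + (fatS col t (Z i) (Y i)).card +
        (fatS col t (X i) (Z i)).card + (fatS col t (Z i) (X i)).card) := by
    intro i hi
    have h1 := nonthin (col := col) (X i) (Y i) (Z i) t m (cX i hi) (cY i hi) (cZ i hi)
    have h2 := Finset.card_filter_add_card_filter_not (s := X i ×ˢ Y i ×ˢ Z i)
      (Thin col t (X i) (Y i) (Z i))
    have h3 : (X i ×ˢ Y i ×ˢ Z i).card = m ^ 3 := by
      rw [Finset.card_product, Finset.card_product, cX i hi, cY i hi, cZ i hi]; ring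
    omega
  have hsum := Finset.sum_le_sum hi
  rw [Finset.sum_const, smul_eq_mul, Finset.sum_add_distrib, ← Finset.mul_sum,
    Finset.sum_add_distrib, Finset.sum_add_distrib, Finset.sum_add_distrib,
    Finset.sum_add_distrib, Finset.sum_add_distrib] at hsum
  have p1 := packing hP R X Y W (θ := θ) h0 hth hQ hn hX hY hYW (Or.inl hXY)
  have p2 := packing hP R Y X W (θ := θ) h0 hth hQ hn hY hX hXW
    (Or.inr (fun i hi j hj x hx y hy => hXY j hj i hi y hy x hx))
  have p3 := packing hP R Y Z W (θ := θ) h0 hth hQ hn hY hZ hZW (Or.inl hYZ)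
  have p4 := packing hP R Z Y W (θ := θ) h0 hth hQ hn hZ hY hYW
    (Or.inr (fun i hi j hj x hx y hy => hYZ j hj i hi y hy x hx))
  have p5 := packing hP R X Z W (θ := θ) h0 hth hQ hn hX hZ hZW (Or.inl hXZ)
  have p6 := packing hP R Z X W (θ := θ) h0 hth hQ hn hZ hX hXW
    (Or.inr (fun i hi j hj x hx y hy => hXZ j hj i hi y hy x hx))
  rw [← hB] at p1 p2 p3 p4 p5 p6
  have hfin : R.card * m ^ 3 ≤ 6 * t * p ^ 3 + m * (12 * B) := by
    refine hsum.trans (Nat.add_le_add hthin (Nat.mul_le_mul_left m ?_))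
    omega
  have h4 : m * (R.card * m ^ 2) ≤ m * (24 * B) := by
    have e1 : m * (R.card * m ^ 2) = R.card * m ^ 3 := by ring
    have e2 : m * (24 * B) = 2 * (m * (12 * B)) := by ring
    rw [e1, e2]
    have e3 : 12 * t * p ^ 3 = 2 * (6 * t * p ^ 3) := by ring
    omega
  exact Nat.le_of_mul_le_mul_left h4 hm

/-- A discrete intermediate value lemma. -/
theorem div_lemma (c : ℕ → ℕ) (m B a : ℕ) (hstep : ∀ x, c (x + 1) ≤ c x + m) (h0 : c 0 ≤ a + m)
    (hB : a ≤ c B) : ∃ x ≤ B, a ≤ c x ∧ c x ≤ a + m := by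
  classical
  have hex : ∃ x, a ≤ c x := ⟨B, hB⟩
  refine ⟨Nat.find hex, Nat.find_min' hex hB, Nat.find_spec hex, ?_⟩
  rcases Nat.eq_zero_or_pos (Nat.find hex) with h | h
  · rw [h]; exact h0
  · have h1 := Nat.find_min hex (Nat.sub_lt h one_pos)
    have h2 := hstep (Nat.find hex - 1)
    rw [Nat.sub_add_cancel h] at h2
    omega

theorem spread [Fintype ι] (W : Finset V) (blk : V → ℕ) {B m n : ℕ} (hm : 0 < m)
    (hB : ∀ v, blk v < B) (hn : ∀ i, (Finset.univ.filter (fun v => f v = i)).card ≤ n)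
    (hι : Fintype.card ι ≤ n)
    (hblk : ∀ i b, (W.filter (fun w => f w = i ∧ blk w = b)).card ≤ m)
    (hW : 10 * m * n ≤ W.card) :
    ∃ x1 x2 : ℕ, ∃ R : Finset ι, W.card ≤ 2 * n * (B + 1) ^ 2 * R.card ∧ x1 ≤ x2 ∧
      ∀ i ∈ R, m ≤ (W.filter (fun w => f w = i ∧ blk w < x1)).card ∧
        m ≤ (W.filter (fun w => f w = i ∧ x1 ≤ blk w ∧ blk w < x2)).card ∧
        m ≤ (W.filter (fun w => f w = i ∧ x2 ≤ blk w)).card := by
  classical
  set R0 := Finset.univ.filter (fun i : ι => 5 * m ≤ (W.filter (fun w => f w = i)).card) with hR0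
  have hR0card : W.card ≤ 2 * n * R0.card := by
    have h1 : W.card = ∑ i : ι, (W.filter (fun w => f w = i)).card :=
      Finset.card_eq_sum_card_fiberwise (fun w _ => Finset.mem_coe.mpr (Finset.mem_univ _))
    have h2 : ∑ i : ι, (W.filter (fun w => f w = i)).card ≤
        ∑ i : ι, ((if i ∈ R0 then n else 0) + 5 * m) := by
      apply Finset.sum_le_sum
      intro i _
      split_ifs with h
      · have : (W.filter (fun w => f w = i)).card ≤ n := by
          refine (Finset.card_le_card ?_).trans (hn i)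
          intro w hw
          exact Finset.mem_filter.mpr ⟨Finset.mem_univ _, (Finset.mem_filter.mp hw).2⟩
        omega
      · rw [hR0, Finset.mem_filter] at h
        have : ¬ 5 * m ≤ (W.filter (fun w => f w = i)).card := fun h' =>
          h ⟨Finset.mem_univ _, h'⟩
        omega
    rw [Finset.sum_add_distrib, Finset.sum_const, Finset.card_univ, smul_eq_mul,
      ← Finset.sum_filter, Finset.sum_const, smul_eq_mul] at h2
    have h3 : (Finset.univ.filter (fun i => i ∈ R0)).card = R0.card := by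
      congr 1; ext i; simp
    rw [h3, ← h1] at h2
    have h4 : Fintype.card ι * (5 * m) ≤ n * (5 * m) := Nat.mul_le_mul_right _ hι
    have h5 : 10 * m * n = 2 * (n * (5 * m)) := by ring
    have h6 : 2 * n * R0.card = 2 * (R0.card * n) := by ring
    omega
  -- cuts
  have hcut : ∀ i : ι, ∃ x : ℕ × ℕ, i ∈ R0 → (x.1 ≤ B ∧ x.2 ≤ B ∧ x.1 ≤ x.2 ∧
      m ≤ (W.filter (fun w => f w = i ∧ blk w < x.1)).card ∧
        m ≤ (W.filter (fun w => f w = i ∧ x.1 ≤ blk w ∧ blk w < x.2)).card ∧
        m ≤ (W.filter (fun w => f w = i ∧ x.2 ≤ blk w)).card) := by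
    intro i
    by_cases hi : i ∈ R0
    swap
    · exact ⟨(0, 0), fun h => absurd h hi⟩
    have hi5 : 5 * m ≤ (W.filter (fun w => f w = i)).card := (Finset.mem_filter.mp hi).2
    let c : ℕ → ℕ := fun x => (W.filter (fun w => f w = i ∧ blk w < x)).card
    have hstep : ∀ x, c (x + 1) ≤ c x + m := by
      intro x
      have h1 : W.filter (fun w => f w = i ∧ blk w < x + 1) ⊆
          W.filter (fun w => f w = i ∧ blk w < x) ∪ W.filter (fun w => f w = i ∧ blk w = x) := by
        intro w hw
        obtain ⟨q1, q2, q3⟩ := Finset.mem_filter.mp hw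
        rw [Finset.mem_union]
        rcases Nat.lt_succ_iff_lt_or_eq.mp q3 with h | h
        · exact Or.inl (Finset.mem_filter.mpr ⟨q1, q2, h⟩)
        · exact Or.inr (Finset.mem_filter.mpr ⟨q1, q2, h⟩)
      have h2 := (Finset.card_le_card h1).trans (Finset.card_union_le _ _)
      have h3 := hblk i x
      show (W.filter (fun w => f w = i ∧ blk w < x + 1)).card ≤
        (W.filter (fun w => f w = i ∧ blk w < x)).card + m
      omega
    have hc0 : c 0 = 0 := by
      show (W.filter (fun w => f w = i ∧ blk w < 0)).card = 0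
      rw [Finset.card_eq_zero, Finset.filter_eq_empty_iff]
      intro w _ h
      omega
    have hcB : c B = (W.filter (fun w => f w = i)).card := by
      show (W.filter (fun w => f w = i ∧ blk w < B)).card = _
      congr 1
      apply Finset.filter_congr
      intro w _
      exact ⟨fun h => h.1, fun h => ⟨h, hB w⟩⟩
    have hsplit : ∀ x, c x + (W.filter (fun w => f w = i ∧ x ≤ blk w)).card =
        (W.filter (fun w => f w = i)).card := by
      intro x
      have := Finset.card_filter_add_card_filter_not (s := W.filter (fun w => f w = i))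
        (fun w => blk w < x)
      rw [Finset.filter_filter, Finset.filter_filter] at this
      rw [← this]
      show (W.filter (fun w => f w = i ∧ blk w < x)).card + _ = _
      congr 2
      apply Finset.filter_congr
      intro w _
      rw [not_lt]
    have hsplit2 : ∀ x y, x ≤ y → c y = c x +
        (W.filter (fun w => f w = i ∧ x ≤ blk w ∧ blk w < y)).card := by
      intro x y hxy
      have := Finset.card_filter_add_card_filter_not
        (s := W.filter (fun w => f w = i ∧ blk w < y)) (fun w => blk w < x)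
      rw [Finset.filter_filter, Finset.filter_filter] at this
      show (W.filter (fun w => f w = i ∧ blk w < y)).card =
        (W.filter (fun w => f w = i ∧ blk w < x)).card + _
      rw [← this]
      congr 2
      · apply Finset.filter_congr
        intro w _
        constructor
        · rintro ⟨⟨a, _⟩, b⟩; exact ⟨a, b⟩
        · rintro ⟨a, b⟩; exact ⟨⟨a, by omega⟩, b⟩
      · apply Finset.filter_congr
        intro w _
        constructor
        · rintro ⟨⟨a, b⟩, c⟩; exact ⟨a, by omega, b⟩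
        · rintro ⟨a, b, c⟩; exact ⟨⟨a, c⟩, by omega⟩
    obtain ⟨x1, hx1B, hx1, hx1'⟩ := div_lemma c m B m hstep (by omega) (by omega)
    obtain ⟨x2, hx2B, hx2, hx2'⟩ := div_lemma c m B (c x1 + m) hstep (by omega) (by omega)
    have hmono : x1 ≤ x2 := by
      by_contra hlt
      push Not at hlt
      have := hsplit2 x2 x1 hlt.le
      omega
    refine ⟨(x1, x2), fun _ => ⟨hx1B, hx2B, hmono, hx1, ?_, ?_⟩⟩
    · have := hsplit2 x1 x2 hmono
      show m ≤ (W.filter (fun w => f w = i ∧ x1 ≤ blk w ∧ blk w < x2)).card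
      omega
    · have := hsplit x2
      show m ≤ (W.filter (fun w => f w = i ∧ x2 ≤ blk w)).card
      omega
  choose x hx using hcut
  -- most popular cut
  obtain ⟨y, hy, hmax⟩ := Finset.exists_max_image
    (Finset.range (B + 1) ×ˢ Finset.range (B + 1)) (fun y => (R0.filter (fun i => x i = y)).card)
    ⟨(0, 0), by simp⟩
  have hpig : R0.card ≤ (B + 1) ^ 2 * (R0.filter (fun i => x i = y)).card := by
    have h1 : R0.card = ∑ z ∈ Finset.range (B + 1) ×ˢ Finset.range (B + 1),
        (R0.filter (fun i => x i = z)).card := by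
      apply Finset.card_eq_sum_card_fiberwise
      intro i hi
      obtain ⟨q1, q2, _⟩ := hx i hi
      rw [Finset.mem_coe, Finset.mem_product, Finset.mem_range, Finset.mem_range]
      omega
    calc R0.card = _ := h1
      _ ≤ ∑ z ∈ Finset.range (B + 1) ×ˢ Finset.range (B + 1),
          (R0.filter (fun i => x i = y)).card := Finset.sum_le_sum hmax
      _ = (B + 1) ^ 2 * (R0.filter (fun i => x i = y)).card := by
          rw [Finset.sum_const, Finset.card_product, Finset.card_range, smul_eq_mul]; ring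
  rcases (R0.filter (fun i => x i = y)).eq_empty_or_nonempty with he | ⟨i0, hi0⟩
  · refine ⟨0, 0, ∅, ?_, le_rfl, fun i hi => absurd hi (Finset.notMem_empty i)⟩
    rw [he, Finset.card_empty, mul_zero] at hpig
    have : R0.card = 0 := by omega
    rw [this] at hR0card
    simpa using hR0card
  · have hle : y.1 ≤ y.2 := by
      obtain ⟨q1, q2⟩ := Finset.mem_filter.mp hi0
      have := (hx i0 q1).2.2.1
      rwa [q2] at this
    refine ⟨y.1, y.2, R0.filter (fun i => x i = y), ?_, hle, ?_⟩
    · calc W.card ≤ 2 * n * R0.card := hR0card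
        _ ≤ 2 * n * ((B + 1) ^ 2 * (R0.filter (fun i => x i = y)).card) :=
          Nat.mul_le_mul_left _ hpig
        _ = _ := by ring
    · intro i hi
      obtain ⟨q1, q2⟩ := Finset.mem_filter.mp hi
      have := (hx i q1).2.2.2
      rwa [q2] at this

/-- Spread lines give dense cells. -/
theorem dense_of_spread [Fintype ι] (hP : Pages pos f p col) (W : Finset V) {L B m n t h Q θ : ℕ}
    (hL : 0 < L) (hB : ∀ v, pos v < B * L) (hm : 0 < m)
    (hn : ∀ i, (Finset.univ.filter (fun v => f v = i)).card ≤ n)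
    (hι : Fintype.card ι ≤ n)
    (hblk : ∀ i b, (W.filter (fun w => f w = i ∧ pos w / L = b)).card ≤ m)
    (hW : 10 * m * n ≤ W.card) (s : ℕ) (hs : 2 * n * (B + 1) ^ 2 * s ≤ W.card) (hn0 : 0 < n)
    (h0 : 0 < h) (hth : 4 * h ≤ t) (hQ : ∀ v, pos v < Q * h)
    (ht : 12 * t * p ^ 3 ≤ s * m ^ 3) (hθ : 48 * (p * Q * θ) ≤ s * m ^ 2) :
    s * m ^ 2 ≤ 48 * (n * (Dense W pos f h θ).card) := by
  classical
  obtain ⟨x1, x2, R, hR, hx12, hRi⟩ := spread (f := f) W (fun v => pos v / L) hm
    (fun v => Nat.div_lt_of_lt_mul (by rw [mul_comm]; exact hB v)) hn hι hblk hW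
  have hsR : s ≤ R.card := by
    have h1 : 2 * n * (B + 1) ^ 2 * s ≤ 2 * n * (B + 1) ^ 2 * R.card := hs.trans hR
    exact Nat.le_of_mul_le_mul_left h1 (by positivity)
  have hch : ∀ i : ι, ∃ S : Finset V × Finset V × Finset V,
      (S.1 ⊆ W.filter (fun w => f w = i ∧ pos w / L < x1)) ∧
      (S.2.1 ⊆ W.filter (fun w => f w = i ∧ x1 ≤ pos w / L ∧ pos w / L < x2)) ∧
      (S.2.2 ⊆ W.filter (fun w => f w = i ∧ x2 ≤ pos w / L)) ∧
      (i ∈ R → S.1.card = m ∧ S.2.1.card = m ∧ S.2.2.card = m) := by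
    intro i
    by_cases hi : i ∈ R
    · obtain ⟨r1, r2, r3⟩ := hRi i hi
      obtain ⟨S1, hS1, c1⟩ := Finset.exists_subset_card_eq r1
      obtain ⟨S2, hS2, c2⟩ := Finset.exists_subset_card_eq r2
      obtain ⟨S3, hS3, c3⟩ := Finset.exists_subset_card_eq r3
      exact ⟨(S1, S2, S3), hS1, hS2, hS3, fun _ => ⟨c1, c2, c3⟩⟩
    · exact ⟨(∅, ∅, ∅), Finset.empty_subset _, Finset.empty_subset _, Finset.empty_subset _,
        fun h => absurd h hi⟩
  choose S h1 h2 h3 hc using hch
  have posdiv : ∀ v w : V, pos v / L < pos w / L → pos v < pos w := by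
    intro v w hvw
    by_contra hle
    push Not at hle
    have := Nat.div_le_div_right (c := L) hle
    omega
  have key := dense_of_sets hP R (fun i => (S i).1) (fun i => (S i).2.1) (fun i => (S i).2.2) W
    (θ := θ) h0 hth hQ hn
    (fun i x hx => (Finset.mem_filter.mp (h1 i hx)).2.1)
    (fun i x hx => (Finset.mem_filter.mp (h2 i hx)).2.1)
    (fun i x hx => (Finset.mem_filter.mp (h3 i hx)).2.1)
    (fun i x hx => (Finset.mem_filter.mp (h1 i hx)).1)
    (fun i x hx => (Finset.mem_filter.mp (h2 i hx)).1)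
    (fun i x hx => (Finset.mem_filter.mp (h3 i hx)).1)
    (fun i _ j _ x hx y hy => posdiv x y (lt_of_lt_of_le (Finset.mem_filter.mp (h1 i hx)).2.2
      (Finset.mem_filter.mp (h2 j hy)).2.2.1))
    (fun i _ j _ x hx y hy => posdiv x y (lt_of_lt_of_le (Finset.mem_filter.mp (h2 i hx)).2.2.2
      (Finset.mem_filter.mp (h3 j hy)).2.2))
    (fun i _ j _ x hx y hy => posdiv x y (lt_of_lt_of_le (Finset.mem_filter.mp (h1 i hx)).2.2
      (hx12.trans (Finset.mem_filter.mp (h3 j hy)).2.2)))
    (fun i hi => (hc i hi).1) (fun i hi => (hc i hi).2.1) (fun i hi => (hc i hi).2.2) hm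
    (ht.trans (Nat.mul_le_mul_right _ hsR))
  have h5 : s * m ^ 2 ≤ R.card * m ^ 2 := Nat.mul_le_mul_right _ hsR
  omega

/-- Few lines are dense in a cell. -/
theorem classes (hpos : Function.Injective pos) (D W : Finset V) {h θ : ℕ} (h0 : 0 < h) (q : ℕ)
    (hq : ∀ v ∈ D, pos v / h = q)
    (hD : ∀ v ∈ D, θ ≤ (W.filter (fun w => f w = f v ∧ pos w / h = pos v / h)).card) :
    (D.image f).card * θ ≤ h := by
  classical
  have h1 : ∑ i ∈ D.image f, θ ≤ ∑ i ∈ D.image f,
      (W.filter (fun w => f w = i ∧ pos w / h = q)).card := by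
    apply Finset.sum_le_sum
    intro i hi
    obtain ⟨v, hv, rfl⟩ := Finset.mem_image.mp hi
    have := hD v hv
    rwa [hq v hv] at this
  have hdisj : Set.PairwiseDisjoint (D.image f : Set ι)
      (fun i => W.filter (fun w => f w = i ∧ pos w / h = q)) := by
    intro i _ j _ hij
    rw [Function.onFun, Finset.disjoint_left]
    intro w hw hw'
    exact hij ((Finset.mem_filter.mp hw).2.1.symm.trans (Finset.mem_filter.mp hw').2.1)
  rw [← Finset.card_biUnion hdisj, Finset.sum_const, smul_eq_mul] at h1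
  refine h1.trans ((Finset.card_le_card ?_).trans (cell_card hpos h0 q))
  intro w hw
  obtain ⟨i, _, hw⟩ := Finset.mem_biUnion.mp hw
  exact Finset.mem_filter.mpr ⟨Finset.mem_univ _, (Finset.mem_filter.mp hw).2.2⟩

/-- Vertices which are dense for both families of lines are rare. -/
theorem both_dense (hpos : Function.Injective pos)
    (hfg : ∀ x y, f x = f y → g x = g y → x = y) (D W1 W2 : Finset V) {k h2 θ1 θ2 Q2 : ℕ}
    (h20 : 0 < h2) (hk : 0 < k) (hQ : ∀ v, pos v < Q2 * h2)
    (hD1 : ∀ v ∈ D, θ1 ≤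
      (W1.filter (fun w => f w = f v ∧ pos w / (h2 * k) = pos v / (h2 * k))).card)
    (hD2 : ∀ v ∈ D, θ2 ≤ (W2.filter (fun w => g w = g v ∧ pos w / h2 = pos v / h2)).card) :
    D.card * (θ1 * θ2) ≤ Q2 * ((h2 * k) * h2) := by
  classical
  have h1 : D.card = ∑ q ∈ Finset.range Q2, (D.filter (fun v => pos v / h2 = q)).card := by
    apply Finset.card_eq_sum_card_fiberwise
    intro v _
    rw [Finset.mem_coe, Finset.mem_range]
    exact Nat.div_lt_of_lt_mul (by rw [mul_comm]; exact hQ v)
  rw [h1, Finset.sum_mul]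
  calc ∑ q ∈ Finset.range Q2, (D.filter (fun v => pos v / h2 = q)).card * (θ1 * θ2)
      ≤ ∑ q ∈ Finset.range Q2, (h2 * k) * h2 := by
        apply Finset.sum_le_sum
        intro q _
        set Dq := D.filter (fun v => pos v / h2 = q) with hDq
        have a1 : Dq.card ≤ (Dq.image f).card * (Dq.image g).card := by
          rw [← Finset.card_product]
          apply Finset.card_le_card_of_injOn (fun v => (f v, g v))
          · intro v hv
            exact Finset.mem_coe.mpr (Finset.mem_product.mpr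
              ⟨Finset.mem_image_of_mem f hv, Finset.mem_image_of_mem g hv⟩)
          · intro v _ w _ hvw
            simp only [Prod.mk.injEq] at hvw
            exact hfg v w hvw.1 hvw.2
        have a2 : (Dq.image f).card * θ1 ≤ h2 * k := by
          apply classes hpos Dq W1 (Nat.mul_pos h20 hk) (q / k)
          · intro v hv
            rw [← (Finset.mem_filter.mp hv).2, Nat.div_div_eq_div_mul]
          · intro v hv
            exact hD1 v (Finset.mem_filter.mp hv).1
        have a3 : (Dq.image g).card * θ2 ≤ h2 := by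
          apply classes hpos Dq W2 h20 q
          · intro v hv
            exact (Finset.mem_filter.mp hv).2
          · intro v hv
            exact hD2 v (Finset.mem_filter.mp hv).1
        calc Dq.card * (θ1 * θ2) ≤ ((Dq.image f).card * (Dq.image g).card) * (θ1 * θ2) :=
              Nat.mul_le_mul_right _ a1
          _ = ((Dq.image f).card * θ1) * ((Dq.image g).card * θ2) := by ring
          _ ≤ (h2 * k) * h2 := Nat.mul_le_mul a2 a3
    _ = Q2 * ((h2 * k) * h2) := by rw [Finset.sum_const, Finset.card_range, smul_eq_mul]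

/-- Vertices dense for `f` are spread for `g`. -/
theorem col_bound (hpos : Function.Injective pos)
    (hfg : ∀ x y, f x = f y → g x = g y → x = y) (D W1 : Finset V) {k h θ : ℕ}
    (h0 : 0 < h) (hk : 0 < k)
    (hD : ∀ v ∈ D, θ ≤ (W1.filter (fun w => f w = f v ∧ pos w / h = pos v / h)).card)
    (j : κ) (b : ℕ) :
    (D.filter (fun w => g w = j ∧ pos w / (h * k) = b)).card * θ ≤ k * h := by
  classical
  set S := D.filter (fun w => g w = j ∧ pos w / (h * k) = b) with hS
  have h1 : S.card = ∑ q ∈ Finset.Ico (b * k) (b * k + k),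
      (S.filter (fun v => pos v / h = q)).card := by
    apply Finset.card_eq_sum_card_fiberwise
    intro v hv
    have h2 := (Finset.mem_filter.mp hv).2.2
    rw [← Nat.div_div_eq_div_mul] at h2
    rw [Finset.mem_coe, Finset.mem_Ico]
    have h3 := Nat.div_add_mod (pos v / h) k
    have h4 := Nat.mod_lt (pos v / h) hk
    rw [h2, mul_comm] at h3
    show b * k ≤ pos v / h ∧ pos v / h < b * k + k
    omega
  rw [h1, Finset.sum_mul]
  calc ∑ q ∈ Finset.Ico (b * k) (b * k + k), (S.filter (fun v => pos v / h = q)).card * θ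
      ≤ ∑ q ∈ Finset.Ico (b * k) (b * k + k), h := by
        apply Finset.sum_le_sum
        intro q _
        set Sq := S.filter (fun v => pos v / h = q) with hSq
        have a1 : Sq.card = (Sq.image f).card := by
          rw [Finset.card_image_of_injOn]
          intro v hv w hw hvw
          have q1 := (Finset.mem_filter.mp (Finset.mem_filter.mp hv).1).2.1
          have q2 := (Finset.mem_filter.mp (Finset.mem_filter.mp hw).1).2.1
          exact hfg v w hvw (q1.trans q2.symm)
        rw [a1]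
        apply classes hpos Sq W1 h0 q
        · intro v hv
          exact (Finset.mem_filter.mp hv).2
        · intro v hv
          exact hD v (Finset.mem_filter.mp (Finset.mem_filter.mp hv).1).1
    _ = k * h := by
        rw [Finset.sum_const, Nat.card_Ico, smul_eq_mul]
        congr 1; omega

end

section

open Finset

variable {V ι κ : Type} [Fintype V] [DecidableEq V] [DecidableEq ι] [DecidableEq κ]
variable {pos : V → ℕ} {f : V → ι} {g : V → κ} {p : ℕ} {col : V → V → Fin p}

/-- The constant `E`. -/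
theorem step1 [Fintype ι] {n C E h1 θ1 : ℕ} {col : V → V → Fin (C * n)}
    (hP : Pages pos f (C * n) col) (W : Finset V)
    (hE : E = 43200 * 54036006) (hC : 0 < C) (hθ : 0 < θ1) (hh : h1 = E * C * θ1)
    (hnn : n = 30 * (E * C ^ 3 * h1))
    (hn : ∀ i, (Finset.univ.filter (fun v => f v = i)).card ≤ n)
    (hι : Fintype.card ι ≤ n) (hpos : ∀ v, pos v < n * n)
    (hblk : ∀ i b, (W.filter (fun w => f w = i ∧ pos w / (432 * 54036006 * C ^ 3 * h1 * n) = b)).card
      ≤ E * C ^ 3 * h1)
    (hW : n * n ≤ 3 * W.card) :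
    n * n ≤ E * (Dense W pos f h1 θ1).card := by
  have hE0 : 0 < E := by rw [hE]; norm_num
  have hh0 : 0 < h1 := by rw [hh]; positivity
  have hn0 : 0 < n := by rw [hnn]; positivity
  have key := dense_of_spread hP W (L := 432 * 54036006 * C ^ 3 * h1 * n) (B := 3000)
    (m := E * C ^ 3 * h1) (n := n) (t := 4 * h1) (h := h1)
    (Q := 30 * (E * C ^ 3) * n) (θ := θ1) (by positivity) ?_ (by positivity) hn hι hblk ?_
    (1296000 * C ^ 3 * h1) ?_ hn0 hh0 le_rfl ?_ ?_ ?_
  · have e1 : E * (1296000 * C ^ 3 * h1 * (E * C ^ 3 * h1) ^ 2) = 48 * n * (n * n) := by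
      have : 48 * n * (n * n) = 48 * (30 * (E * C ^ 3 * h1)) * ((30 * (E * C ^ 3 * h1)) *
        (30 * (E * C ^ 3 * h1))) := by rw [← hnn]
      rw [this]; ring
    have e2 := Nat.mul_le_mul_left E key
    rw [e1] at e2
    have e3 : E * (48 * (n * (Dense W pos f h1 θ1).card)) =
      48 * n * (E * (Dense W pos f h1 θ1).card) := by ring
    rw [e3] at e2
    exact Nat.le_of_mul_le_mul_left e2 (by positivity)
  · intro v
    refine (hpos v).trans_le (le_of_eq ?_)
    have : n * n = n * (30 * (E * C ^ 3 * h1)) := by rw [← hnn]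
    rw [this, hE]; ring
  · have : 10 * (E * C ^ 3 * h1) * n * 3 = n * n := by
      have : n * n = n * (30 * (E * C ^ 3 * h1)) := by rw [← hnn]
      rw [this]; ring
    omega
  · have : 2 * n * (3000 + 1) ^ 2 * (1296000 * C ^ 3 * h1) * 3 = n * n := by
      have : n * n = n * (30 * (E * C ^ 3 * h1)) := by rw [← hnn]
      rw [this, hE]; ring
    omega
  · intro v
    refine (hpos v).trans_le (le_of_eq ?_)
    have : n * n = n * (30 * (E * C ^ 3 * h1)) := by rw [← hnn]
    rw [this]; ring
  · have : (C * n) ^ 3 = C ^ 3 * (30 * (E * C ^ 3 * h1)) ^ 3 := by rw [← hnn]; ring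
    rw [this]
    apply le_of_eq; ring
  · have : 48 * (C * n * (30 * (E * C ^ 3) * n) * θ1) =
        48 * (C * (30 * (E * C ^ 3 * h1)) * (30 * (E * C ^ 3) * (30 * (E * C ^ 3 * h1))) * θ1) := by
      rw [← hnn]
    rw [this]
    apply le_of_eq
    rw [hh]; ring


/-- The constant `E`. -/
theorem step2 [Fintype κ] {n C E h1 x y : ℕ} {col : V → V → Fin (C * n)}
    (hP : Pages pos g (C * n) col) (W : Finset V)
    (hE : 0 < E) (hC : 0 < C) (hx : 0 < x)
    (hy : y = 3456000000 * E ^ 9 * C ^ 9 * x)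
    (hh : h1 = 1152000000 * E ^ 9 * C ^ 8 * y)
    (hnn : n = 34560000000 * E ^ 10 * C ^ 11 * y)
    (hn : ∀ i, (Finset.univ.filter (fun v => g v = i)).card ≤ n)
    (hκ : Fintype.card κ ≤ n) (hpos : ∀ v, pos v < n * n)
    (hblk : ∀ i b, (W.filter (fun w => g w = i ∧
      pos w / (h1 * (3456000000 * E ^ 8 * C ^ 10 * y)) = b)).card ≤ 3456000000 * E ^ 9 * C ^ 11 * y)
    (hW : n * n ≤ E * W.card) :
    480 * E * C ^ 3 * y * (n * n) ≤ 48 * (n * (Dense W pos g y x).card) := by
  have hy0 : 0 < y := by rw [hy]; positivity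
  have hh0 : 0 < h1 := by rw [hh]; positivity
  have hn0 : 0 < n := by rw [hnn]; positivity
  have key := dense_of_spread hP W (L := h1 * (3456000000 * E ^ 8 * C ^ 10 * y))
    (B := 300 * E ^ 3 * C ^ 4)
    (m := 3456000000 * E ^ 9 * C ^ 11 * y) (n := n) (t := 4 * y) (h := y)
    (Q := 34560000000 * E ^ 10 * C ^ 11 * n) (θ := x) (by positivity) ?_ (by positivity) hn hκ
    hblk ?_ (48000 * E ^ 3 * C ^ 3 * y) ?_ hn0 hy0 le_rfl ?_ ?_ ?_
  · refine (le_of_eq ?_).trans key
    have : 480 * E * C ^ 3 * y * (n * n) = 480 * E * C ^ 3 * y *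
      ((34560000000 * E ^ 10 * C ^ 11 * y) * (34560000000 * E ^ 10 * C ^ 11 * y)) := by rw [← hnn]
    rw [this]; ring
  · intro v
    refine (hpos v).trans_le (le_of_eq ?_)
    rw [hnn, hh]; ring
  · have : E * (10 * (3456000000 * E ^ 9 * C ^ 11 * y) * n) = n * n := by
      have : n * n = n * (34560000000 * E ^ 10 * C ^ 11 * y) := by rw [← hnn]
      rw [this]; ring
    rw [← this] at hW
    exact Nat.le_of_mul_le_mul_left hW hE
  · have h1 : E * (2 * n * (2 * (300 * E ^ 3 * C ^ 4)) ^ 2 * (48000 * E ^ 3 * C ^ 3 * y)) =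
        n * n := by
      have : n * n = n * (34560000000 * E ^ 10 * C ^ 11 * y) := by rw [← hnn]
      rw [this]; ring
    rw [← h1] at hW
    have h2 := Nat.le_of_mul_le_mul_left hW hE
    refine le_trans ?_ h2
    apply Nat.mul_le_mul_right
    apply Nat.mul_le_mul_left
    apply Nat.pow_le_pow_left
    have : 0 < 300 * E ^ 3 * C ^ 4 := by positivity
    omega
  · intro v
    refine (hpos v).trans_le (le_of_eq ?_)
    have : n * n = n * (34560000000 * E ^ 10 * C ^ 11 * y) := by rw [← hnn]
    rw [this]; ring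
  · have : (C * n) ^ 3 = C ^ 3 * (34560000000 * E ^ 10 * C ^ 11 * y) ^ 3 := by rw [← hnn]; ring
    rw [this]
    apply le_of_eq; ring
  · have : 48 * (C * n * (34560000000 * E ^ 10 * C ^ 11 * n) * x) =
        48 * (C * (34560000000 * E ^ 10 * C ^ 11 * y) * (34560000000 * E ^ 10 * C ^ 11 *
          (34560000000 * E ^ 10 * C ^ 11 * y)) * x) := by
      rw [← hnn]
    rw [this]
    apply le_of_eq
    rw [hy]; ring


theorem mem_dense {W : Finset V} {h θ : ℕ} {v : V} (hv : v ∈ Dense W pos f h θ) :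
    v ∈ W ∧ θ ≤ (W.filter (fun w => f w = f v ∧ pos w / h = pos v / h)).card := by
  unfold Dense at hv
  exact ⟨(Finset.mem_filter.mp hv).1, (Finset.mem_filter.mp hv).2⟩

theorem core [Fintype ι] [Fintype κ] {n C E x y : ℕ} {col : V → V → Fin (C * n)}
    (hPf : Pages pos f (C * n) col) (hPg : Pages pos g (C * n) col) (W : Finset V)
    (hfg : ∀ x y, f x = f y → g x = g y → x = y)
    (hE : E = 43200 * 54036006) (hC : 0 < C) (hx : 3456000000 * E ^ 10 * C ^ 9 < x)
    (hy : y = 3456000000 * E ^ 9 * C ^ 9 * x)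
    (hnn : n = 34560000000 * E ^ 10 * C ^ 11 * y)
    (hnf : ∀ i, (Finset.univ.filter (fun v => f v = i)).card ≤ n)
    (hng : ∀ i, (Finset.univ.filter (fun v => g v = i)).card ≤ n)
    (hι : Fintype.card ι ≤ n) (hκ : Fintype.card κ ≤ n) (hpos : ∀ v, pos v < n * n)
    {L m : ℕ} (hL : L * 3000 = n * n) (hm : m * 30 = n)
    (hblk : ∀ i b, (W.filter (fun w => f w = i ∧ pos w / L = b)).card ≤ m)
    (hW : n * n ≤ 3 * W.card) : False := by
  have hE0 : 0 < E := by rw [hE]; norm_num
  have hx0 : 0 < x := by omega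
  have hy0 : 0 < y := by rw [hy]; positivity
  have hn0 : 0 < n := by rw [hnn]; positivity
  obtain ⟨θ1, hθ1⟩ : ∃ t, t = 1152000000 * E ^ 8 * C ^ 7 * y := ⟨_, rfl⟩
  obtain ⟨h1, hh1⟩ : ∃ t, t = 1152000000 * E ^ 9 * C ^ 8 * y := ⟨_, rfl⟩
  have hθ0 : 0 < θ1 := by rw [hθ1]; positivity
  have hh0 : 0 < h1 := by rw [hh1]; positivity
  have hhθ : h1 = E * C * θ1 := by rw [hh1, hθ1]; ring
  have hnh : n = 30 * (E * C ^ 3 * h1) := by rw [hnn, hh1]; ring
  have hL' : L = 432 * 54036006 * C ^ 3 * h1 * n := by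
    have : 432 * 54036006 * C ^ 3 * h1 * n * 3000 = n * n := by
      have : n * n = 30 * (E * C ^ 3 * h1) * n := by rw [← hnh]
      rw [this, hE]; ring
    omega
  have hm' : m = E * C ^ 3 * h1 := by omega
  rw [hL', hm'] at hblk
  have k1 := step1 hPf W hE hC hθ0 hhθ hnh hnf hι hpos hblk hW
  set D1 := Dense W pos f h1 θ1 with hD1
  have hblk2 : ∀ i b, (D1.filter (fun w => g w = i ∧
      pos w / (h1 * (3456000000 * E ^ 8 * C ^ 10 * y)) = b)).card ≤
        3456000000 * E ^ 9 * C ^ 11 * y := by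
    intro i b
    have := col_bound hPf.inj hfg D1 W (k := 3456000000 * E ^ 8 * C ^ 10 * y) (h := h1) (θ := θ1)
      hh0 (by positivity) (fun v hv => (mem_dense hv).2) i b
    have e : 3456000000 * E ^ 8 * C ^ 10 * y * h1 = 3456000000 * E ^ 9 * C ^ 11 * y * θ1 := by
      rw [hhθ]; ring
    rw [e] at this
    exact Nat.le_of_mul_le_mul_right this hθ0
  have k2 := step2 hPg D1 hE0 hC hx0 hy hh1 hnn hng hκ hpos hblk2 k1
  set D2 := Dense D1 pos g y x with hD2
  have k3 := both_dense hPf.inj hfg D2 W D1 (k := 1152000000 * E ^ 9 * C ^ 8) (h2 := y)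
    (θ1 := θ1) (θ2 := x) (Q2 := 34560000000 * E ^ 10 * C ^ 11 * n) hy0 (by positivity)
    (by
      intro v
      refine (hpos v).trans_le (le_of_eq ?_)
      have : n * n = n * (34560000000 * E ^ 10 * C ^ 11 * y) := by rw [← hnn]
      rw [this]; ring)
    (by
      intro v hv
      have := (mem_dense (mem_dense hv).1).2
      have e : h1 = y * (1152000000 * E ^ 9 * C ^ 8) := by rw [hh1]; ring
      rwa [e] at this)
    (fun v hv => (mem_dense hv).2)
  have e1 : 34560000000 * E ^ 10 * C ^ 11 * n * (y * (1152000000 * E ^ 9 * C ^ 8) * y) =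
      n * n * (E * C * θ1) := by
    have : n * n * (E * C * θ1) = (34560000000 * E ^ 10 * C ^ 11 * y) * n * (E * C * θ1) := by
      rw [← hnn]
    rw [this, hθ1]; ring
  rw [e1] at k3
  have k4 : 480 * E * C ^ 3 * y * (n * n) * (θ1 * x) ≤ 48 * (n * (n * n * (E * C * θ1))) := by
    calc 480 * E * C ^ 3 * y * (n * n) * (θ1 * x) ≤ 48 * (n * D2.card) * (θ1 * x) :=
          Nat.mul_le_mul_right _ k2
      _ = 48 * (n * (D2.card * (θ1 * x))) := by ring
      _ ≤ 48 * (n * (n * n * (E * C * θ1))) :=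
          Nat.mul_le_mul_left _ (Nat.mul_le_mul_left _ k3)
  have k5 : (48 * (n * n) * (E * C * θ1)) * (10 * C ^ 2 * y * x) ≤
      (48 * (n * n) * (E * C * θ1)) * (34560000000 * E ^ 10 * C ^ 11 * y) := by
    rw [← hnn]
    calc _ = 480 * E * C ^ 3 * y * (n * n) * (θ1 * x) := by ring
      _ ≤ _ := k4
      _ = _ := by ring
  have k6 := Nat.le_of_mul_le_mul_left k5 (by positivity)
  have k7 : (10 * C ^ 2 * y) * x ≤ (10 * C ^ 2 * y) * (3456000000 * E ^ 10 * C ^ 9) := by
    refine k6.trans (le_of_eq ?_)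
    ring
  have k8 := Nat.le_of_mul_le_mul_left k7 (by positivity)
  omega

theorem no_pages [Fintype ι] [Fintype κ] {n C E x y : ℕ} {col : V → V → Fin (C * n)}
    (hPf : Pages pos f (C * n) col) (hPg : Pages pos g (C * n) col)
    (hfg : ∀ x y, f x = f y → g x = g y → x = y)
    (hE : E = 43200 * 54036006) (hC : 0 < C) (hx : 3456000000 * E ^ 10 * C ^ 9 < x)
    (hy : y = 3456000000 * E ^ 9 * C ^ 9 * x)
    (hnn : n = 34560000000 * E ^ 10 * C ^ 11 * y)
    (hnf : ∀ i, (Finset.univ.filter (fun v => f v = i)).card ≤ n)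
    (hng : ∀ i, (Finset.univ.filter (fun v => g v = i)).card ≤ n)
    (hι : Fintype.card ι ≤ n) (hκ : Fintype.card κ ≤ n) (hpos : ∀ v, pos v < n * n)
    (hV : Fintype.card V = n * n) : False := by
  classical
  have hE0 : 0 < E := by rw [hE]; norm_num
  have hx0 : 0 < x := by omega
  have hy0 : 0 < y := by rw [hy]; positivity
  have hn0 : 0 < n := by rw [hnn]; positivity
  obtain ⟨m, hm⟩ : ∃ m, m * 30 = n := by
    refine ⟨1152000000 * E ^ 10 * C ^ 11 * y, ?_⟩
    rw [hnn]; ring
  obtain ⟨L, hL⟩ : ∃ L, L * 3000 = n * n := by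
    refine ⟨11520000 * E ^ 10 * C ^ 11 * y * n, ?_⟩
    have : n * n = (34560000000 * E ^ 10 * C ^ 11 * y) * n := by rw [← hnn]
    rw [this]; ring
  have hm0 : 0 < m := by omega
  have hL0 : 0 < L := by
    rcases Nat.eq_zero_or_pos L with h | h
    · rw [h, zero_mul] at hL
      have : 0 < n * n := by positivity
      omega
    · exact h
  let cf : V → ℕ := fun v =>
    ((Finset.univ : Finset V).filter (fun w => f w = f v ∧ pos w / L = pos v / L)).card
  let cg : V → ℕ := fun v =>
    ((Finset.univ : Finset V).filter (fun w => g w = g v ∧ pos w / L = pos v / L)).card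
  set Wf := (Finset.univ : Finset V).filter (fun v => cf v < m) with hWf
  set Wg := (Finset.univ : Finset V).filter (fun v => cg v < m) with hWg
  set D0 := (Finset.univ : Finset V).filter (fun v => m ≤ cf v ∧ m ≤ cg v) with hD0
  have hcov : (Finset.univ : Finset V) ⊆ D0 ∪ (Wf ∪ Wg) := by
    intro v _
    rw [Finset.mem_union, Finset.mem_union, hD0, hWf, hWg, Finset.mem_filter, Finset.mem_filter,
      Finset.mem_filter]
    by_cases h1 : cf v < m
    · exact Or.inr (Or.inl ⟨Finset.mem_univ _, h1⟩)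
    · by_cases h2 : cg v < m
      · exact Or.inr (Or.inr ⟨Finset.mem_univ _, h2⟩)
      · exact Or.inl ⟨Finset.mem_univ _, not_lt.mp h1, not_lt.mp h2⟩
  have hcard := Finset.card_le_card hcov
  rw [Finset.card_univ, hV] at hcard
  have hcard2 := (Finset.card_union_le D0 (Wf ∪ Wg))
  have hcard3 := (Finset.card_union_le Wf Wg)
  have hD0card : D0.card * 10 ≤ 3 * (n * n) := by
    have k3 := both_dense hPf.inj hfg D0 Finset.univ Finset.univ (k := 1) (h2 := L)
      (θ1 := m) (θ2 := m) (Q2 := 3000) hL0 one_pos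
      (by
        intro v
        rw [mul_comm, hL]
        exact hpos v)
      (by
        intro v hv
        rw [mul_one]
        exact (Finset.mem_filter.mp hv).2.1)
      (fun v hv => (Finset.mem_filter.mp hv).2.2)
    have e1 : 900 * (D0.card * (m * m)) = D0.card * (n * n) := by
      rw [← hm]; ring
    have e2 : 3000 * (3000 * ((L * 1) * L)) = (n * n) * (n * n) := by
      rw [← hL]; ring
    have e3 : (D0.card * 10) * (n * n) ≤ (3 * (n * n)) * (n * n) := by
      have := Nat.mul_le_mul_left 9000 k3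
      calc (D0.card * 10) * (n * n) = 10 * (900 * (D0.card * (m * m))) := by rw [e1]; ring
        _ = 9000 * (D0.card * (m * m)) := by ring
        _ ≤ 9000 * (3000 * ((L * 1) * L)) := this
        _ = 3 * (3000 * (3000 * ((L * 1) * L))) := by ring
        _ = _ := by rw [e2]; ring
    exact Nat.le_of_mul_le_mul_right e3 (by positivity)
  have hdich : n * n ≤ 3 * Wf.card ∨ n * n ≤ 3 * Wg.card := by omega
  rcases hdich with h | h
  · refine core hPf hPg Wf hfg hE hC hx hy hnn hnf hng hι hκ hpos hL hm ?_ h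
    intro i b
    rcases (Wf.filter (fun w => f w = i ∧ pos w / L = b)).eq_empty_or_nonempty with he | ⟨v, hv⟩
    · rw [he, Finset.card_empty]; exact Nat.zero_le _
    · obtain ⟨v1, v2, v3⟩ := Finset.mem_filter.mp hv
      have h4 : cf v < m := (Finset.mem_filter.mp v1).2
      refine le_trans (Finset.card_le_card ?_) h4.le
      intro w hw
      obtain ⟨_, w2, w3⟩ := Finset.mem_filter.mp hw
      exact Finset.mem_filter.mpr ⟨Finset.mem_univ _, w2.trans v2.symm, w3.trans v3.symm⟩
  · refine core hPg hPf Wg (fun a b h1 h2 => hfg a b h2 h1) hE hC hx hy hnn hng hnf hκ hι hpos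
      hL hm ?_ h
    intro i b
    rcases (Wg.filter (fun w => g w = i ∧ pos w / L = b)).eq_empty_or_nonempty with he | ⟨v, hv⟩
    · rw [he, Finset.card_empty]; exact Nat.zero_le _
    · obtain ⟨v1, v2, v3⟩ := Finset.mem_filter.mp hv
      have h4 : cg v < m := (Finset.mem_filter.mp v1).2
      refine le_trans (Finset.card_le_card ?_) h4.le
      intro w hw
      obtain ⟨_, w2, w3⟩ := Finset.mem_filter.mp hw
      exact Finset.mem_filter.mpr ⟨Finset.mem_univ _, w2.trans v2.symm, w3.trans v3.symm⟩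

end

section

open Finset

/-- `G` has a book embedding on `p` pages: a linear order of the vertices (the spine) and an
assignment of the edges to `p` pages such that no two edges `ab`, `cd` on one page interleave,
that is, satisfy `a < c < b < d`. -/
def HasBookEmbedding {V : Type} (G : SimpleGraph V) (p : ℕ) : Prop :=
  ∃ (r : LinearOrder V) (page : G.edgeSet → Fin p),
    ∀ (a b c d : V) (hab : G.Adj a b) (hcd : G.Adj c d),
      r.lt a c → r.lt c b → r.lt b d → page ⟨s(a, b), hab⟩ ≠ page ⟨s(c, d), hcd⟩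

/-- The book thickness of `G`: the least number of pages of a book embedding of `G`. -/
noncomputable def bookThickness {V : Type} (G : SimpleGraph V) : ℕ :=
  sInf {p : ℕ | HasBookEmbedding G p}

/-- The Cartesian product `K_n □ K_n` (the rook's graph). -/
def rook (n : ℕ) : SimpleGraph (Fin n × Fin n) :=
  SimpleGraph.boxProd (⊤ : SimpleGraph (Fin n)) (⊤ : SimpleGraph (Fin n))

theorem rook_adj {n : ℕ} {x y : Fin n × Fin n} :
    (rook n).Adj x y ↔ x ≠ y ∧ (x.1 = y.1 ∨ x.2 = y.2) := by
  unfold rook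
  rw [SimpleGraph.boxProd_adj, SimpleGraph.top_adj, SimpleGraph.top_adj]
  constructor
  · rintro (⟨h1, h2⟩ | ⟨h1, h2⟩)
    · exact ⟨fun h => h1 (by rw [h]), Or.inr h2⟩
    · exact ⟨fun h => h1 (by rw [h]), Or.inl h2⟩
  · rintro ⟨hne, h | h⟩
    · exact Or.inr ⟨fun h' => hne (Prod.ext h h'), h⟩
    · exact Or.inl ⟨fun h' => hne (Prod.ext h' h), h⟩

/-- A finite graph has a book embedding attaining its book thickness. -/
theorem bookThickness_spec {V : Type} [Finite V] (G : SimpleGraph V) :
    HasBookEmbedding G (bookThickness G) := by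
  classical
  have hne : {p : ℕ | HasBookEmbedding G p}.Nonempty := by
    haveI := Fintype.ofFinite V
    haveI : Fintype G.edgeSet := Fintype.ofFinite _
    obtain ⟨r⟩ : Nonempty (LinearOrder V) := ⟨LinearOrder.lift' (Fintype.equivFin V)
      (Fintype.equivFin V).injective⟩
    refine ⟨Fintype.card G.edgeSet, r, Fintype.equivFin _, ?_⟩
    intro a b c d hab hcd h1 h2 h3 heq
    have h4 := (Fintype.equivFin G.edgeSet).injective heq
    have h5 : s(a, b) = s(c, d) := congrArg Subtype.val h4
    rw [Sym2.eq_iff] at h5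
    rcases h5 with ⟨h5, _⟩ | ⟨h5, _⟩
    · rw [h5] at h1
      exact absurd h1 (@lt_irrefl _ r.toPreorder _)
    · rw [h5] at h1
      exact absurd (@lt_trans _ r.toPreorder _ _ _ h2 h3) (@lt_asymm _ r.toPreorder _ _ h1)
  exact Nat.sInf_mem hne

/-- Ranks. -/
theorem rank_exists {A V : Type} [LinearOrder A] [Fintype V] [DecidableEq V] (e : V → A)
    (he : Function.Injective e) : ∃ pos : V → ℕ, Function.Injective pos ∧
      (∀ v, pos v < Fintype.card V) ∧ ∀ v w, pos v < pos w → e v < e w := by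
  let pos : V → ℕ := fun v => (Finset.univ.filter (fun w => e w < e v)).card
  have hmono : ∀ v w, e v < e w → pos v < pos w := by
    intro v w hvw
    apply Finset.card_lt_card
    refine ⟨?_, fun hsub => ?_⟩
    · intro u hu
      rw [Finset.mem_filter] at hu ⊢
      exact ⟨hu.1, hu.2.trans hvw⟩
    · have : v ∈ Finset.univ.filter (fun u => e u < e w) :=
        Finset.mem_filter.mpr ⟨Finset.mem_univ _, hvw⟩
      have := (Finset.mem_filter.mp (hsub this)).2
      exact lt_irrefl _ this
  refine ⟨pos, ?_, ?_, ?_⟩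
  · intro v w hvw
    rcases lt_trichotomy (e v) (e w) with h | h | h
    · have := hmono v w h; omega
    · exact he h
    · have := hmono w v h; omega
  · intro v
    have : (Finset.univ.filter (fun w => e w < e v)).card < (Finset.univ : Finset V).card := by
      apply Finset.card_lt_card
      refine ⟨Finset.filter_subset _ _, fun hsub => ?_⟩
      have := (Finset.mem_filter.mp (hsub (Finset.mem_univ v))).2
      exact lt_irrefl _ this
    rwa [Finset.card_univ] at this
  · intro v w hvw
    rcases lt_trichotomy (e v) (e w) with h | h | h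
    · exact h
    · have := he h
      rw [this] at hvw
      exact absurd hvw (lt_irrefl _)
    · have := hmono w v h; omega

theorem pages_of_embedding {N n p P : ℕ} (hn : n ≤ N) (hp : p ≤ P) (hP : 0 < P)
    (h : HasBookEmbedding (rook N) p) :
    ∃ (pos : Fin n × Fin n → ℕ) (col : Fin n × Fin n → Fin n × Fin n → Fin P),
      Pages pos (Prod.fst : Fin n × Fin n → Fin n) P col ∧
      Pages pos (Prod.snd : Fin n × Fin n → Fin n) P col ∧ ∀ v, pos v < n * n := by
  classical
  obtain ⟨r, page, hpage⟩ := h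
  let e : Fin n × Fin n → Fin N × Fin N := fun v => (Fin.castLE hn v.1, Fin.castLE hn v.2)
  have he : Function.Injective e := by
    intro v w hvw
    have h1 := congrArg Prod.fst hvw
    have h2 := congrArg Prod.snd hvw
    exact Prod.ext (Fin.castLE_injective hn h1) (Fin.castLE_injective hn h2)
  obtain ⟨pos, hinj, hlt, hord⟩ := @rank_exists (Fin N × Fin N) (Fin n × Fin n) r _ _ e he
  let col : Fin n × Fin n → Fin n × Fin n → Fin P := fun a b =>
    if h : (rook N).Adj (e a) (e b) then Fin.castLE hp (page ⟨s(e a, e b), h⟩) else ⟨0, hP⟩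
  have hsymm : ∀ a b, col a b = col b a := by
    intro a b
    show (if h : (rook N).Adj (e a) (e b) then Fin.castLE hp (page ⟨s(e a, e b), h⟩)
      else ⟨0, hP⟩) = (if h : (rook N).Adj (e b) (e a) then Fin.castLE hp (page ⟨s(e b, e a), h⟩)
      else ⟨0, hP⟩)
    by_cases h : (rook N).Adj (e a) (e b)
    · rw [dif_pos h, dif_pos h.symm]
      congr 2
      exact Subtype.ext Sym2.eq_swap
    · rw [dif_neg h, dif_neg (fun h' => h h'.symm)]
  have hnc : ∀ a b c d, (rook N).Adj (e a) (e b) → (rook N).Adj (e c) (e d) →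
      pos a < pos c → pos c < pos b → pos b < pos d → col a b ≠ col c d := by
    intro a b c d hab hcd h1 h2 h3
    show (if h : (rook N).Adj (e a) (e b) then Fin.castLE hp (page ⟨s(e a, e b), h⟩)
      else ⟨0, hP⟩) ≠ (if h : (rook N).Adj (e c) (e d) then Fin.castLE hp (page ⟨s(e c, e d), h⟩)
      else ⟨0, hP⟩)
    rw [dif_pos hab, dif_pos hcd]
    intro heq
    exact hpage (e a) (e b) (e c) (e d) hab hcd (hord _ _ h1) (hord _ _ h2) (hord _ _ h3)
      (Fin.castLE_injective hp heq)
  refine ⟨pos, col, ⟨hinj, hsymm, ?_⟩, ⟨hinj, hsymm, ?_⟩, ?_⟩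
  · intro a b c d hab hcd h1 h2 h3
    apply hnc a b c d _ _ h1 h2 h3
    · rw [rook_adj]
      refine ⟨fun h => ?_, Or.inl (congrArg (Fin.castLE hn) hab)⟩
      rw [he h] at h1
      omega
    · rw [rook_adj]
      refine ⟨fun h => ?_, Or.inl (congrArg (Fin.castLE hn) hcd)⟩
      rw [he h] at h2
      omega
  · intro a b c d hab hcd h1 h2 h3
    apply hnc a b c d _ _ h1 h2 h3
    · rw [rook_adj]
      refine ⟨fun h => ?_, Or.inr (congrArg (Fin.castLE hn) hab)⟩
      rw [he h] at h1
      omega
    · rw [rook_adj]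
      refine ⟨fun h => ?_, Or.inr (congrArg (Fin.castLE hn) hcd)⟩
      rw [he h] at h2
      omega
  · intro v
    have := hlt v
    rwa [Fintype.card_prod, Fintype.card_fin] at this

/-- Sizes excluded. -/
def size (E C : ℕ) : ℕ :=
  34560000000 * E ^ 10 * C ^ 11 * (3456000000 * E ^ 9 * C ^ 9 * (3456000000 * E ^ 10 * C ^ 9 + 1))

theorem size_le (E C : ℕ) : size E (C + 1) ≤ size E 1 * (C + 1) ^ 29 := by
  unfold size
  have h : 3456000000 * E ^ 10 * (C + 1) ^ 9 + 1 ≤ (3456000000 * E ^ 10 + 1) * (C + 1) ^ 9 := by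
    have : 1 ≤ (C + 1) ^ 9 := Nat.one_le_pow _ _ (by omega)
    calc 3456000000 * E ^ 10 * (C + 1) ^ 9 + 1 ≤ 3456000000 * E ^ 10 * (C + 1) ^ 9 +
          (C + 1) ^ 9 := Nat.add_le_add_left this _
      _ = _ := by ring
  calc _ ≤ 34560000000 * E ^ 10 * (C + 1) ^ 11 * (3456000000 * E ^ 9 * (C + 1) ^ 9 *
        ((3456000000 * E ^ 10 + 1) * (C + 1) ^ 9)) :=
        Nat.mul_le_mul_left _ (Nat.mul_le_mul_left _ h)
    _ = _ := by ring

theorem size_step (E C : ℕ) (hC : 0 < C) : size E (C + 1) ≤ 2 ^ 29 * size E C := by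
  have hle : C + 1 ≤ 2 * C := by omega
  have h11 : (C + 1) ^ 11 ≤ (2 * C) ^ 11 := Nat.pow_le_pow_left hle _
  have h9 : (C + 1) ^ 9 ≤ (2 * C) ^ 9 := Nat.pow_le_pow_left hle _
  have h : 3456000000 * E ^ 10 * (C + 1) ^ 9 + 1 ≤ 2 ^ 9 * (3456000000 * E ^ 10 * C ^ 9 + 1) := by
    calc 3456000000 * E ^ 10 * (C + 1) ^ 9 + 1 ≤ 3456000000 * E ^ 10 * (2 * C) ^ 9 + 2 ^ 9 :=
          Nat.add_le_add (Nat.mul_le_mul_left _ h9) (by norm_num)
      _ = _ := by ring
  unfold size
  calc _ ≤ 34560000000 * E ^ 10 * (2 * C) ^ 11 * (3456000000 * E ^ 9 * (2 * C) ^ 9 *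
        (2 ^ 9 * (3456000000 * E ^ 10 * C ^ 9 + 1))) :=
        Nat.mul_le_mul (Nat.mul_le_mul_left _ h11)
          (Nat.mul_le_mul (Nat.mul_le_mul_left _ h9) h)
    _ = _ := by ring

theorem not_embeds {E C N p : ℕ} (hE : E = 43200 * 54036006) (hC : 0 < C)
    (hN : size E C ≤ N) (hp : p ≤ C * size E C) : ¬ HasBookEmbedding (rook N) p := by
  intro h
  have hE0 : 0 < E := by rw [hE]; norm_num
  have hs : 0 < size E C := by unfold size; positivity
  obtain ⟨pos, col, h1, h2, h3⟩ := pages_of_embedding hN hp (Nat.mul_pos hC hs) h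
  refine no_pages (C := C) (E := E) (n := size E C) (col := col)
    (x := 3456000000 * E ^ 10 * C ^ 9 + 1)
    (y := 3456000000 * E ^ 9 * C ^ 9 * (3456000000 * E ^ 10 * C ^ 9 + 1))
    h1 h2 (fun x y a b => Prod.ext a b) hE hC (Nat.lt_succ_self _) rfl rfl ?_ ?_ ?_ ?_ h3 ?_
  · intro i
    calc (Finset.univ.filter (fun v : Fin (size E C) × Fin (size E C) => v.1 = i)).card
        ≤ (Finset.univ : Finset (Fin (size E C))).card := by
          apply Finset.card_le_card_of_injOn Prod.snd (fun _ _ => Finset.mem_coe.mpr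
            (Finset.mem_univ _))
          intro v hv w hw hvw
          exact Prod.ext ((Finset.mem_filter.mp hv).2.trans (Finset.mem_filter.mp hw).2.symm) hvw
      _ = size E C := by rw [Finset.card_univ, Fintype.card_fin]
  · intro i
    calc (Finset.univ.filter (fun v : Fin (size E C) × Fin (size E C) => v.2 = i)).card
        ≤ (Finset.univ : Finset (Fin (size E C))).card := by
          apply Finset.card_le_card_of_injOn Prod.fst (fun _ _ => Finset.mem_coe.mpr
            (Finset.mem_univ _))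
          intro v hv w hw hvw
          exact Prod.ext hvw ((Finset.mem_filter.mp hv).2.trans (Finset.mem_filter.mp hw).2.symm)
      _ = size E C := by rw [Finset.card_univ, Fintype.card_fin]
  · rw [Fintype.card_fin]
  · rw [Fintype.card_fin]
  · rw [Fintype.card_prod, Fintype.card_fin]

theorem pages_pos {N p : ℕ} (hN : 2 ≤ N) (h : HasBookEmbedding (rook N) p) : 0 < p := by
  obtain ⟨_, page, _⟩ := h
  have hadj : (rook N).Adj (⟨0, by omega⟩, ⟨0, by omega⟩) (⟨0, by omega⟩, ⟨1, by omega⟩) := by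
    rw [rook_adj]
    refine ⟨fun h => ?_, Or.inl rfl⟩
    have h1 : (0 : ℕ) = 1 := congrArg (fun x : Fin N × Fin N => (x.2 : ℕ)) h
    omega
  have := (page ⟨s((⟨0, by omega⟩, ⟨0, by omega⟩), (⟨0, by omega⟩, ⟨1, by omega⟩)), hadj⟩).isLt
  omega

theorem superlinear : ∃ K : ℕ, 0 < K ∧ ∀ n p : ℕ, 2 ≤ n → HasBookEmbedding (rook n) p →
    n ^ 30 ≤ K * p ^ 29 := by
  obtain ⟨E, hE⟩ : ∃ E, E = 43200 * 54036006 := ⟨_, rfl⟩
  have hE0 : 0 < E := by rw [hE]; norm_num
  set K0 := size E 1 with hK0
  have hK0pos : 0 < K0 := by rw [hK0]; unfold size; positivity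
  refine ⟨(2 ^ 29) ^ 30 * K0 ^ 30, by positivity, ?_⟩
  intro N p hN h
  have hp := pages_pos hN h
  have hex : ∃ C, N < size E (C + 1) := by
    refine ⟨N, ?_⟩
    have h1 : N + 1 ≤ (N + 1) ^ 11 := Nat.le_self_pow (by norm_num) _
    have h2 : (N + 1) ^ 11 * 1 ≤ size E (N + 1) := by
      unfold size
      refine Nat.mul_le_mul ?_ ?_
      · have : 1 ≤ 34560000000 * E ^ 10 := Nat.one_le_iff_ne_zero.mpr (by positivity)
        calc (N + 1) ^ 11 = 1 * (N + 1) ^ 11 := (one_mul _).symm
          _ ≤ _ := Nat.mul_le_mul_right _ this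
      · exact Nat.one_le_iff_ne_zero.mpr (by positivity)
    omega
  classical
  rcases Nat.eq_zero_or_pos (Nat.find hex) with h0 | h0
  · have h1 := Nat.find_spec hex
    rw [h0, zero_add, ← hK0] at h1
    calc N ^ 30 ≤ K0 ^ 30 := Nat.pow_le_pow_left h1.le _
      _ = 1 * K0 ^ 30 * 1 := by ring
      _ ≤ (2 ^ 29) ^ 30 * K0 ^ 30 * p ^ 29 := by
          have h2 : 1 ≤ (2 ^ 29) ^ 30 := Nat.one_le_pow _ _ (by norm_num)
          exact Nat.mul_le_mul (Nat.mul_le_mul_right _ h2) (Nat.one_le_pow _ _ hp)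
  · have h1 := Nat.find_spec hex
    have h2 := Nat.find_min hex (Nat.sub_lt h0 one_pos)
    rw [show Nat.find hex - 1 + 1 = Nat.find hex by omega] at h2
    push Not at h2
    set C := Nat.find hex with hC
    have h3 : C * size E C < p := by
      by_contra hle
      push Not at hle
      exact not_embeds hE h0 h2 hle h
    have h4 : N ≤ 2 ^ 29 * size E C := h1.le.trans (size_step E C h0)
    have h5 : N ≤ 2 ^ 29 * (K0 * C ^ 29) := by
      refine h1.le.trans ((size_le E C).trans ?_)
      have : (C + 1) ^ 29 ≤ (2 * C) ^ 29 := Nat.pow_le_pow_left (by omega) _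
      calc size E 1 * (C + 1) ^ 29 ≤ size E 1 * (2 * C) ^ 29 := Nat.mul_le_mul_left _ this
        _ = 2 ^ 29 * (K0 * C ^ 29) := by rw [← hK0]; ring
    calc N ^ 30 = N ^ 29 * N := by ring
      _ ≤ (2 ^ 29 * size E C) ^ 29 * (2 ^ 29 * (K0 * C ^ 29)) :=
          Nat.mul_le_mul (Nat.pow_le_pow_left h4 _) h5
      _ = (2 ^ 29) ^ 30 * K0 * (C * size E C) ^ 29 := by ring
      _ ≤ (2 ^ 29) ^ 30 * K0 ^ 30 * p ^ 29 := by
          refine Nat.mul_le_mul (Nat.mul_le_mul_left _ (Nat.le_self_pow (by norm_num) _)) ?_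
          exact Nat.pow_le_pow_left h3.le _

theorem main :
    (∃ c : ℝ, 0 < c ∧ ∀ n : ℕ, 2 ≤ n →
      c * (n : ℝ) ^ ((1 : ℝ) + 1 / 29) ≤ (bookThickness (rook n) : ℝ)) ∧
    (∀ C : ℕ, ∃ N : ℕ, ∀ n : ℕ, N ≤ n → C * n < bookThickness (rook n)) ∧
    (∀ n : ℕ, HasBookEmbedding (rook n) (bookThickness (rook n))) := by
  obtain ⟨K, hK, hmain⟩ := superlinear
  have key : ∀ n : ℕ, 2 ≤ n → n ^ 30 ≤ K * bookThickness (rook n) ^ 29 := fun n hn =>
    hmain n _ hn (bookThickness_spec _)
  refine ⟨?_, ?_, fun n => bookThickness_spec _⟩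
  · have hKr : (0 : ℝ) < K := by exact_mod_cast hK
    refine ⟨((K : ℝ) ^ ((1 : ℝ) / 29))⁻¹, by positivity, ?_⟩
    intro n hn
    have h1 : ((n : ℝ)) ^ 30 ≤ K * (bookThickness (rook n) : ℝ) ^ 29 := by
      exact_mod_cast key n hn
    have hn0 : (0 : ℝ) ≤ n := Nat.cast_nonneg _
    have h2 : (n : ℝ) ^ ((1 : ℝ) + 1 / 29) ≤
        (K : ℝ) ^ ((1 : ℝ) / 29) * (bookThickness (rook n) : ℝ) := by
      have h3 := Real.rpow_le_rpow (by positivity) h1 (show (0 : ℝ) ≤ 1 / 29 by norm_num)
      rw [Real.mul_rpow (by positivity) (by positivity)] at h3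
      have e1 : ((n : ℝ) ^ 30) ^ ((1 : ℝ) / 29) = (n : ℝ) ^ ((1 : ℝ) + 1 / 29) := by
        rw [← Real.rpow_natCast, ← Real.rpow_mul hn0]
        congr 1; norm_num
      have e2 : ((bookThickness (rook n) : ℝ) ^ 29) ^ ((1 : ℝ) / 29) =
          (bookThickness (rook n) : ℝ) := by
        rw [← Real.rpow_natCast, ← Real.rpow_mul (by positivity)]
        norm_num
      rwa [e1, e2] at h3
    rw [inv_mul_le_iff₀ (by positivity)]
    exact h2
  · intro C
    refine ⟨K * C ^ 29 + 2, ?_⟩
    intro n hn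
    by_contra hle
    push Not at hle
    have h1 := key n (by omega)
    have h2 : n ^ 30 ≤ K * (C * n) ^ 29 :=
      h1.trans (Nat.mul_le_mul_left _ (Nat.pow_le_pow_left hle _))
    have h3 : n ^ 29 * n ≤ n ^ 29 * (K * C ^ 29) := by
      calc n ^ 29 * n = n ^ 30 := by ring
        _ ≤ _ := h2
        _ = _ := by ring
    have hn0 : 0 < n := by omega
    have h4 := Nat.le_of_mul_le_mul_left h3 (by positivity)
    omega

end

theorem result :
    (∃ c : ℝ, 0 < c ∧ ∀ n : ℕ, 2 ≤ n →
      c * (n : ℝ) ^ ((1 : ℝ) + 1 / 29) ≤ (bookThickness (rook n) : ℝ)) ∧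
    (∀ C : ℕ, ∃ N : ℕ, ∀ n : ℕ, N ≤ n → C * n < bookThickness (rook n)) ∧
    (∀ n : ℕ, HasBookEmbedding (rook n) (bookThickness (rook n))) :=
  main

end Pool.Agent.Results.MP_fb44d2_co.Superlinear
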